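import Pool.Agent.H67.PLN.End
import Pool.Agent.H58.AFF.Fan

/-!
# Lemma PLANE: the final contradiction

`fan_use`: copies close to one line. `pEnd_of : FanStmt → PEndStmt`.
-/

set_option autoImplicit false

namespace Pool.PLN

open Finset

/-- Copies close to one line, from the fan statement. -/
theorem fan_use {r N₁ K : ℕ} {CF : ℝ}
    (hF : ∀ (b : (Fin 2 → Fin (K + 1)) → Polynomial ℝ) (s₀ lam ε H B κ ρ : ℝ),
      (∀ a, (b a).natDegree ≤ K) → 0 < lam → lam ≤ 1 → 0 ≤ ε → 1 ≤ H → 0 < B → B ≤ 1 → 0 < κ →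
      κ ≤ 1 → 0 < ρ → ρ ≤ 1 →
      (∃ a : Fin 2 → Fin (K + 1), (a 0 : ℕ) + a 1 ≤ r ∧ ∃ s, |s - s₀| ≤ lam ∧
        B ≤ |(b a).eval s|) →
      (∀ a, ∀ s, |s - s₀| ≤ lam → |(b a).eval s| ≤ H * |(b a).eval s₀|) →
      CF * H ^ N₁ * ε ≤ (lam * B * κ * ρ) ^ N₁ →
      ∀ (M n : ℕ) (e w : Fin M → ℝ), (∀ i, κ ≤ |e i| ∧ |e i| ≤ 1 ∧ |w i| ≤ 1) →
        (∀ i s, |s - s₀| ≤ lam → |Ev b s (e i * (s - s₀)) (w i * (s - s₀))| ≤ ε) →
        r * n < M → ∃ (i₀ : Fin M) (I : Finset (Fin M)), n < I.card ∧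
          ∀ i ∈ I, |w i - w i₀ / e i₀ * e i| ≤ ρ)
    {b : (Fin 2 → Fin (K + 1)) → Polynomial ℝ} {s₀ lam ε H B κ ρ Bd : ℝ}
    (hdeg : ∀ a, (b a).natDegree ≤ K) (hlam : 0 < lam) (hlam1 : lam ≤ 1) (hε : 0 ≤ ε)
    (hH : 1 ≤ H) (hB : 0 < B) (hB1 : B ≤ 1) (hκ : 0 < κ) (hκ1 : κ ≤ 1) (hρ : 0 < ρ) (hρ1 : ρ ≤ 1)
    (hBd : 1 ≤ Bd)
    (hlow : ∃ a : Fin 2 → Fin (K + 1), (a 0 : ℕ) + a 1 ≤ r ∧ ∃ s, |s - s₀| ≤ lam ∧
      B ≤ |(b a).eval s|)
    (hdom : ∀ a, ∀ s, |s - s₀| ≤ lam → |(b a).eval s| ≤ H * |(b a).eval s₀|)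
    (hnum : CF * H ^ N₁ * ε ≤ (lam * B * (κ / 2) * (ρ / Bd)) ^ N₁)
    {e w : Fin ((r + 1) * (r + 4) + 1) → ℝ} (hew : ∀ i, |e i| ≤ 1 ∧ |w i| ≤ Bd)
    (hsep : ∀ i i', i ≠ i' → κ ≤ |e i - e i'|)
    (hvan : ∀ i s, |s - s₀| ≤ lam → |Ev b s (e i * (s - s₀)) (w i * (s - s₀))| ≤ ε) :
    ∃ (β : ℝ) (φ : Fin (r + 4) → Fin ((r + 1) * (r + 4) + 1)), |β| ≤ 2 * Bd / κ ∧
      Function.Injective φ ∧ ∀ i, |w (φ i) - β * e (φ i)| ≤ ρ := by
  classical
  have hBd0 : 0 < Bd := by linarith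
  obtain ⟨ib, hib⟩ := one_small hsep
  let b' : (Fin 2 → Fin (K + 1)) → Polynomial ℝ := fun a => Polynomial.C (Bd ^ (a 1 : ℕ)) * b a
  have hb' : ∀ a s, (b' a).eval s = Bd ^ (a 1 : ℕ) * (b a).eval s := by
    intro a s
    change (Polynomial.C (Bd ^ (a 1 : ℕ)) * b a).eval s = _
    rw [Polynomial.eval_mul, Polynomial.eval_C]
  have hEv : ∀ s η ζ : ℝ, Ev b' s η (ζ / Bd) = Ev b s η ζ := by
    intro s η ζ
    unfold Ev
    refine sum_congr rfl fun a _ => ?_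
    rw [hb', div_pow]
    field_simp
  obtain ⟨i₀, I, hI, hIw⟩ := hF b' s₀ lam ε H B (κ / 2) (ρ / Bd)
    (fun a => (Polynomial.natDegree_C_mul_le _ _).trans (hdeg a)) hlam hlam1 hε hH hB hB1
    (by positivity) (by linarith) (by positivity) ((div_le_one hBd0).2 (hρ1.trans hBd))
    (by
      obtain ⟨a, ha, s, hs, hBs⟩ := hlow
      refine ⟨a, ha, s, hs, ?_⟩
      rw [hb', abs_mul, abs_of_pos (pow_pos hBd0 _)]
      exact hBs.trans (le_mul_of_one_le_left (abs_nonneg _) (one_le_pow₀ hBd)))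
    (by
      intro a s hs
      rw [hb', hb', abs_mul, abs_mul, abs_of_pos (pow_pos hBd0 _)]
      have := mul_le_mul_of_nonneg_left (hdom a s hs) (pow_pos hBd0 (a 1 : ℕ)).le
      linarith)
    hnum ((r + 1) * (r + 4)) (r + 4) (fun i => e (ib.succAbove i))
    (fun i => w (ib.succAbove i) / Bd)
    (by
      intro i
      refine ⟨hib _ (Fin.succAbove_ne _ _), (hew _).1, ?_⟩
      rw [abs_div, abs_of_pos hBd0, div_le_one hBd0]
      exact (hew _).2)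
    (by
      intro i s hs
      rw [div_mul_eq_mul_div, hEv]
      exact hvan _ s hs)
    (by nlinarith)
  have he0 : κ / 2 ≤ |e (ib.succAbove i₀)| := hib _ (Fin.succAbove_ne _ _)
  have he0p : 0 < |e (ib.succAbove i₀)| := by linarith
  refine ⟨w (ib.succAbove i₀) / e (ib.succAbove i₀),
    fun i => ib.succAbove (I.orderEmbOfFin rfl (Fin.castLE hI.le i)), ?_, ?_, ?_⟩
  · rw [abs_div]
    calc |w (ib.succAbove i₀)| / |e (ib.succAbove i₀)| ≤ Bd / (κ / 2) :=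
          div_le_div₀ hBd0.le (hew _).2 (by positivity) he0
      _ = 2 * Bd / κ := by field_simp
  · intro i j hij
    have h1 := Fin.succAbove_right_injective hij
    have h2 := (I.orderEmbOfFin rfl).injective h1
    exact Fin.castLE_injective _ h2
  · intro i
    have h1 := hIw _ (I.orderEmbOfFin_mem rfl (Fin.castLE hI.le i))
    rw [le_div_iff₀ hBd0] at h1
    refine le_trans (le_of_eq ?_) h1
    rw [← abs_of_pos hBd0, ← abs_mul, abs_of_pos hBd0]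
    congr 1
    have : e (ib.succAbove i₀) ≠ 0 := abs_pos.1 he0p
    field_simp

/-- **The end**, from the fan statement. -/
theorem pEnd_of (hFan : FanStmt) : PEndStmt := by
  classical
  intro r
  obtain ⟨N₁, hF⟩ := hFan r
  refine ⟨(2 * r + 8) * (N₁ + 1), ?_⟩
  intro K
  obtain ⟨CF, hCF1, hF⟩ := hF K
  obtain ⟨CL, hCL1, hL⟩ := low_small r K
  obtain ⟨k2, hk2⟩ : ∃ k2 : ℝ, k2 = ((K : ℝ) + 1) ^ 2 := ⟨_, rfl⟩
  obtain ⟨k3, hk3⟩ : ∃ k3 : ℝ, k3 = ((K : ℝ) + 1) ^ 3 := ⟨_, rfl⟩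
  have hK1 : (1 : ℝ) ≤ (K : ℝ) + 1 := by
    have : (0 : ℝ) ≤ (K : ℝ) := Nat.cast_nonneg _
    linarith
  have hk21 : 1 ≤ k2 := by rw [hk2]; exact one_le_pow₀ hK1
  have hk31 : 1 ≤ k3 := by rw [hk3]; exact one_le_pow₀ hK1
  have hk20 : 0 < k2 := by linarith
  have hk30 : 0 < k3 := by linarith
  have hCL0 : 0 < CL := by linarith
  have hCF0 : 0 < CF := by linarith
  obtain ⟨C₂, hC₂⟩ : ∃ C₂ : ℝ, C₂ = 9600 + 10 * k2 * CL * k3 * 2 ^ r := ⟨_, rfl⟩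
  have hC₂0 : 9600 ≤ C₂ := by
    have : 0 ≤ 10 * k2 * CL * k3 * 2 ^ r := by positivity
    linarith
  have hC₂' : 10 * k2 * CL * k3 * 2 ^ r ≤ C₂ := by linarith
  have hC₂p : 0 < C₂ := by linarith
  obtain ⟨C, hC⟩ : ∃ C : ℝ, C = 9600 + CF * (8 * k2 * C₂) ^ N₁ + 5 * k2 * CL * 2 ^ r +
    5 * k2 * k2 * CL * 2 ^ (2 * r + 1) + 5 * k2 + 4 ^ (r + 1) := ⟨_, rfl⟩
  have p1 : 0 ≤ CF * (8 * k2 * C₂) ^ N₁ := by positivity
  have p2 : 0 ≤ 5 * k2 * CL * 2 ^ r := by positivity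
  have p3 : 0 ≤ 5 * k2 * k2 * CL * 2 ^ (2 * r + 1) := by positivity
  have p4 : 0 ≤ 5 * k2 := by positivity
  have p5 : (0 : ℝ) ≤ 4 ^ (r + 1) := by positivity
  have hC1 : 9600 ≤ C := by linarith
  have q1 : CF * (8 * k2 * C₂) ^ N₁ ≤ C := by linarith
  have q2 : 5 * k2 * CL * 2 ^ r ≤ C := by linarith
  have q3 : 5 * k2 * k2 * CL * 2 ^ (2 * r + 1) ≤ C := by linarith
  have q4 : 5 * k2 ≤ C := by linarith
  have q5 : (4 : ℝ) ^ (r + 1) ≤ C := by linarith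
  clear hC p1 p2 p3 p4 p5
  refine ⟨C, by linarith, ?_⟩
  intro lam rho₀ κ κ₂ ρ' Bd H ε εc ε' B₀ hlam hlam1 hrho hrho1 hκ hκr hκ₂ hκ₂1 hρ' hρ'1 hBd hH hε
    hεc hε' hε'1 hB₀ hB₀1 hnc hnp hno s b R Ey Ez e w hdeg hs1 hsep hsz hlow hdom hew hesep hvan
    hcr hEy hEz hR hcon hslope hdiff
  have hC0 : 0 < C := by linarith
  have hκ1 : κ ≤ 1 := hκr.trans hrho1
  have hBd0 : 0 < Bd := by linarith
  have hH0 : 0 < H := by linarith
  -- the order of vanishing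
  obtain ⟨n1, n2, n3⟩ := num_ord (N := (2 * r + 8) * (N₁ + 1)) hlam hlam1 hrho hκ hκr hκ₂ hκ₂1 hρ'
    hρ'1 hBd hH hB₀ hB₀1 q5 (by nlinarith) hno
  have hT0 : 0 < Bd * rho₀ / lam := by positivity
  have hτ0 : 0 < rho₀ / lam := by positivity
  have hτT : rho₀ / lam ≤ Bd * rho₀ / lam :=
    div_le_div_of_nonneg_right (le_mul_of_one_le_left hrho.le hBd) hlam.le
  have hτ1 : rho₀ / lam ≤ 1 := by linarith
  have hτl : rho₀ / lam * lam = rho₀ := by field_simp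
  have hrl : rho₀ ≤ lam := by rw [← div_le_one hlam]; exact hτ1
  have hBr : Bd * rho₀ ≤ lam / 4 := by
    rw [div_le_iff₀ hlam] at n3; linarith
  have hτr : k2 * (rho₀ / lam) ^ (r + 1) ≤ B₀ / 5 := by
    have h1 : (rho₀ / lam) ^ (r + 1) ≤ (Bd * rho₀ / lam) ^ (r + 1) :=
      pow_le_pow_left₀ hτ0.le hτT _
    have h2 : 5 * k2 * (Bd * rho₀ / lam) ^ (r + 1) ≤ C * (Bd * rho₀ / lam) ^ (r + 1) :=
      mul_le_mul_of_nonneg_right q4 (by positivity)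
    have h3 : k2 * (rho₀ / lam) ^ (r + 1) ≤ k2 * (Bd * rho₀ / lam) ^ (r + 1) :=
      mul_le_mul_of_nonneg_left h1 hk20.le
    linarith
  -- the precision
  obtain ⟨X, hX⟩ : ∃ X : ℝ, X = lam * κ * κ₂ * ρ' * B₀ * ε' := ⟨_, rfl⟩
  obtain ⟨x0, x1, xa, xb, xl, xB, xκ, xε⟩ := num_X hlam hlam1 hκ hκ1 hκ₂ hκ₂1 hρ' hρ'1 hB₀ hB₀1
    hε' hε'1 hX
  rw [← hX] at hnp
  obtain ⟨ρ, hρ⟩ : ∃ ρ : ℝ, ρ = X ^ (r + 6) / (C₂ * H * Bd ^ (r + 4)) := ⟨_, rfl⟩
  obtain ⟨hρ0, hρl, hρ1, m1, m2, m3, m4⟩ := num_pre (c₂ := 5 * k2 * CL * 2 ^ r) x0 x1 xa xb xl xB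
    xκ xε hH hBd hε hCF0.le hC₂0 hk21 (by positivity) q1 q2 hnp hρ
  -- the lines of the copies
  have hline : ∀ j, ∃ (β : ℝ) (φ : Fin (r + 4) → Fin ((r + 1) * (r + 4) + 1)),
      |β| ≤ 2 * Bd / κ ∧ Function.Injective φ ∧ ∀ i, |w j (φ i) - β * e j (φ i)| ≤ ρ := by
    intro j
    refine fan_use hF (hdeg j) hlam hlam1 hε hH (by positivity : 0 < B₀ / (4 * k2)) ?_ hκ hκ1 hρ0
      hρ1 hBd ?_ (hdom j) m2 (fun i => ⟨(hew j i).1.trans hrho1, (hew j i).2⟩) (hesep j) (hvan j)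
    · rw [div_le_one (by positivity)]; linarith
    · obtain ⟨x, η, ζ, hx, hη, hζ, hBv⟩ := hlow j
      have hxl : |x - s j| ≤ lam := hx.trans hrl
      have hnum : ((K : ℝ) + 1) ^ 2 * (rho₀ / lam) ^ (r + 1) ≤ B₀ / 2 := by
        rw [← hk2]; linarith
      obtain ⟨a, ha, hBa⟩ := low_ex (r := r) (c := fun a => (b j a).eval x) hlam hτ0.le hτ1 hlam1
        (fun a => hsz j a x hxl) (by rw [hτl]; exact hη) (by rw [hτl]; exact hζ) hBv hnum hB₀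
      rw [← hk2] at hBa
      exact ⟨a, ha, x, hxl, hBa⟩
  choose β φ hβb hφi hβw using hline
  -- the slopes
  have hsl : ∀ j, |β j| ≤ Bd ∧ Ln1 (R j) ε' (Ez - β j * Ey) (β j) := by
    intro j
    have h34 : 3 ≤ r + 4 := by omega
    refine slope_le (e := fun i => e j (φ j (Fin.castLE h34 i)))
      (w := fun i => w j (φ j (Fin.castLE h34 i))) (hR j).1 hκ hκ1 hεc hρ0.le hρ1 hBd hEy hEz
      (hβb j) (fun i => ⟨(hew j _).1.trans hrho1, hβw j _, hcon j _⟩) ?_ ?_ (hslope j)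
    · intro i i' hii
      refine hesep j _ _ fun h => hii ?_
      exact Fin.castLE_injective _ (hφi j h)
    · have h1 : 9600 * Bd ^ 3 * εc ≤ ε' * κ ^ 5 := by
        have a1 : Bd ^ 3 ≤ Bd ^ ((2 * r + 8) * (N₁ + 1)) := pow_le_pow_right₀ hBd (by nlinarith)
        have a2 : κ ^ ((2 * r + 8) * (N₁ + 1)) ≤ κ ^ 5 :=
          pow_le_pow_of_le_one hκ.le hκ1 (by nlinarith)
        calc 9600 * Bd ^ 3 * εc ≤ C * Bd ^ ((2 * r + 8) * (N₁ + 1)) * εc := by gcongr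
          _ ≤ ε' * κ ^ ((2 * r + 8) * (N₁ + 1)) := hnc
          _ ≤ ε' * κ ^ 5 := mul_le_mul_of_nonneg_left a2 hε'.le
      linarith
  have hβs : ∀ j k, j ≠ k → ρ' ≤ |β j - β k| := by
    intro j k hjk
    refine hdiff j k hjk _ _ _ _ (hsl j).1 (hsl k).1 (hsl j).2 (hsl k).2 ?_ ?_
    · rw [show Ez - (Ez - β j * Ey) - β j * Ey = 0 by ring, abs_zero]; exact hε'.le
    · rw [show Ez - (Ez - β k * Ey) - β k * Ey = 0 by ring, abs_zero]; exact hε'.le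
  -- the polynomial of the index `0` at its time
  have hsz0 : ∀ a, |(b 0 a).eval (s 0)| * lam ^ od a ≤ 1 := by
    intro a
    refine hsz 0 a (s 0) ?_
    rw [sub_self, abs_zero]; exact hlam.le
  have hr1 : r + 1 ≤ r + 4 := by omega
  have hδ2 : ∀ j : Fin (r + 1), |s 0 - s j.succ| ≤ 2 := by
    intro j
    refine (abs_sub _ _).trans ?_
    linarith [hs1 0, hs1 j.succ]
  have hδκ : ∀ j : Fin (r + 1), κ₂ ≤ |s 0 - s j.succ| := fun j =>
    hsep 0 j.succ (Fin.succ_ne_zero j).symm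
  have hxle : ∀ (j : Fin (r + 1)) (i : Fin ((r + 1) * (r + 4) + 1)),
      |e j.succ i * (s 0 - s j.succ)| ≤ 2 * rho₀ := by
    intro j i
    rw [abs_mul]
    calc |e j.succ i| * |s 0 - s j.succ| ≤ rho₀ * 2 :=
          mul_le_mul (hew _ _).1 (hδ2 j) (abs_nonneg _) hrho.le
      _ = 2 * rho₀ := by ring
  have hcoef := hL (fun a => (b 0 a).eval (s 0)) (fun j => β j.succ)
    (fun j i => e j.succ (φ j.succ (Fin.castLE hr1 i)) * (s 0 - s j.succ)) lam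
    (ε + k3 * (2 * ρ) / lam) (κ * κ₂) ρ' Bd (2 * rho₀) hlam (by positivity) (by positivity) hρ'
    hBd (by positivity) (by linarith) hsz0 (fun j => (hsl _).1)
    (fun j k hjk => hβs _ _ fun h => hjk (Fin.succ_injective _ h))
    (fun j i => hxle j _)
    (by
      intro j i i' hii
      rw [← sub_mul, abs_mul]
      refine mul_le_mul (hesep _ _ _ fun h => hii ?_) (hδκ j) hκ₂.le (abs_nonneg _)
      exact Fin.castLE_injective _ (hφi _ h))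
    (by
      intro j i
      set i' := φ j.succ (Fin.castLE hr1 i) with hi'
      have c1 := hcr j.succ 0 i'
      unfold Ev at c1
      have c2 : |e j.succ i' * (s 0 - s j.succ)| ≤ lam := by
        refine (hxle j i').trans ?_
        have : 2 * rho₀ ≤ 2 * (Bd * rho₀) := by
          have := le_mul_of_one_le_left hrho.le hBd
          linarith
        linarith
      have c3 : |β j.succ * (e j.succ i' * (s 0 - s j.succ))| ≤ lam / 2 := by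
        rw [abs_mul]
        calc _ ≤ Bd * (2 * rho₀) := mul_le_mul (hsl _).1 (hxle j i') (abs_nonneg _) hBd0.le
          _ ≤ lam / 2 := by linarith
      have c4 : |w j.succ i' * (s 0 - s j.succ) - β j.succ * (e j.succ i' * (s 0 - s j.succ))| ≤
          2 * ρ := by
        rw [show w j.succ i' * (s 0 - s j.succ) - β j.succ * (e j.succ i' * (s 0 - s j.succ)) =
          (w j.succ i' - β j.succ * e j.succ i') * (s 0 - s j.succ) by ring, abs_mul]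
        calc _ ≤ ρ * 2 := mul_le_mul (hβw j.succ _) (hδ2 j) (abs_nonneg _) hρ0.le
          _ = 2 * ρ := by ring
      have c5 : |w j.succ i' * (s 0 - s j.succ)| ≤ lam := by
        calc _ = |(w j.succ i' * (s 0 - s j.succ) - β j.succ * (e j.succ i' *
              (s 0 - s j.succ))) + β j.succ * (e j.succ i' * (s 0 - s j.succ))| := by
              rw [sub_add_cancel]
          _ ≤ 2 * ρ + lam / 2 := (abs_add_le _ _).trans (add_le_add c4 c3)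
          _ ≤ lam := by linarith
      have c6 := lip_le hlam hsz0 c2 c5 (c3.trans (by linarith)) c4
      rw [← hk3] at c6
      have c7 := abs_sub_abs_le_abs_sub
        (∑ a, (b 0 a).eval (s 0) * ((e j.succ i' * (s 0 - s j.succ)) ^ (a 0 : ℕ) *
          (β j.succ * (e j.succ i' * (s 0 - s j.succ))) ^ (a 1 : ℕ)))
        (∑ a, (b 0 a).eval (s 0) * ((e j.succ i' * (s 0 - s j.succ)) ^ (a 0 : ℕ) *
          (w j.succ i' * (s 0 - s j.succ)) ^ (a 1 : ℕ)))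
      rw [abs_sub_comm] at c7
      linarith)
  -- the contradiction
  obtain ⟨x, η, ζ, hx, hη, hζ, hBv⟩ := hlow 0
  have hxl : |x - s 0| ≤ lam := hx.trans hrl
  have hfin := num_fin (CL := CL) (k2 := k2) (k3 := k3) (r := r) hlam hrho hrho1 hκ hκ₂ hρ' hBd hH
    hε hρ0.le hk20.le hk30.le hCL0.le m3
    ((by gcongr : 10 * k2 * CL * k3 * 2 ^ r * (H * Bd ^ r) * ρ ≤
      C₂ * (H * Bd ^ r) * ρ).trans m4)
    ((by gcongr : 5 * k2 * k2 * CL * 2 ^ (2 * r + 1) * (H * (rho₀ / κ) ^ r *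
      (Bd ^ r * (Bd * rho₀ / lam) ^ (r + 1))) ≤ C * (H * (rho₀ / κ) ^ r *
      (Bd ^ r * (Bd * rho₀ / lam) ^ (r + 1)))).trans n1)
  have hval := val_le (r := r) (c := fun a => (b 0 a).eval x) (lam := lam) (τ := rho₀ / lam)
    (η := η) (ζ := ζ) (M := H * (CL * ((ε + k3 * (2 * ρ) / lam +
      ((K : ℝ) + 1) ^ 2 * (Bd * (2 * rho₀) / lam) ^ (r + 1)) *
      (2 * rho₀ / (κ * κ₂)) ^ r * (Bd / ρ') ^ r))) hlam hτ0.le hτ1 (by positivity)
    (fun a => hsz 0 a x hxl) (by rw [hτl]; exact hη) (by rw [hτl]; exact hζ)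
    (by
      intro a ha
      rw [hτl]
      have h1 := hcoef a ha
      have h2 := hdom 0 a x hxl
      calc |(b 0 a).eval x| * rho₀ ^ od a ≤ (H * |(b 0 a).eval (s 0)|) * (2 * rho₀) ^ od a := by
            refine mul_le_mul h2 (pow_le_pow_left₀ hrho.le (by linarith) _) (by positivity)
              (by positivity)
        _ = H * (|(b 0 a).eval (s 0)| * (2 * rho₀) ^ od a) := by ring
        _ ≤ _ := mul_le_mul_of_nonneg_left h1 hH0.le)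
  rw [← hk2] at hval
  have hBv' : B₀ ≤ |∑ a, (b 0 a).eval x * (η ^ (a 0 : ℕ) * ζ ^ (a 1 : ℕ))| := hBv
  linarith

/-- **The end.** -/
theorem pEndStmt : PEndStmt := pEnd_of Pool.AFF.fanStmt

end Pool.PLN
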