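import Pool.Agent.H67.PLN.Low

/-!
# Lemma PLANE: the final contradiction

`pEnd_of`: from the fan statement.
-/

set_option autoImplicit false

namespace Pool.PLN

open Finset

/-- At most one of the separated numbers is small. -/
theorem one_small {n : ℕ} {e : Fin (n + 1) → ℝ} {κ : ℝ}
    (hs : ∀ i i', i ≠ i' → κ ≤ |e i - e i'|) : ∃ i₀, ∀ i, i ≠ i₀ → κ / 2 ≤ |e i| := by
  by_cases h : ∃ i₀, |e i₀| < κ / 2
  · obtain ⟨i₀, h0⟩ := h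
    refine ⟨i₀, fun i hi => ?_⟩
    by_contra hcon
    rw [not_le] at hcon
    have h1 := hs i i₀ hi
    have h2 : |e i - e i₀| ≤ |e i| + |e i₀| := abs_sub _ _
    linarith
  · push Not at h
    exact ⟨0, fun i _ => h i⟩

/-- The low part of a polynomial has a large coefficient. -/
theorem low_ex {K r : ℕ} {c : (Fin 2 → Fin (K + 1)) → ℝ} {lam τ η ζ B₀ : ℝ} (hlam : 0 < lam)
    (hτ : 0 ≤ τ) (hτ1 : τ ≤ 1) (hlam1 : lam ≤ 1) (hc : ∀ a, |c a| * lam ^ od a ≤ 1)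
    (hη : |η| ≤ τ * lam) (hζ : |ζ| ≤ τ * lam)
    (hB : B₀ ≤ |∑ a, c a * (η ^ (a 0 : ℕ) * ζ ^ (a 1 : ℕ))|)
    (hnum : ((K : ℝ) + 1) ^ 2 * τ ^ (r + 1) ≤ B₀ / 2) (hB0 : 0 < B₀) :
    ∃ a, od a ≤ r ∧ B₀ / (4 * ((K : ℝ) + 1) ^ 2) ≤ |c a| := by
  classical
  by_contra hcon
  push Not at hcon
  have e2 := sum_filter_add_sum_filter_not univ
    (fun a : Fin 2 → Fin (K + 1) => od a ≤ r)
    (fun a => c a * (η ^ (a 0 : ℕ) * ζ ^ (a 1 : ℕ)))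
  have ht := tail_le (r := r) hlam hτ hτ1 hc hη hζ
  have hk : 0 < ((K : ℝ) + 1) ^ 2 := by positivity
  have hlow : |∑ a ∈ univ.filter (fun a : Fin 2 → Fin (K + 1) => od a ≤ r),
      c a * (η ^ (a 0 : ℕ) * ζ ^ (a 1 : ℕ))| ≤ B₀ / 4 := by
    refine (abs_sum_le_sum_abs _ _).trans ?_
    calc _ ≤ ∑ _a ∈ univ.filter (fun a : Fin 2 → Fin (K + 1) => od a ≤ r),
          B₀ / (4 * ((K : ℝ) + 1) ^ 2) := by
          refine sum_le_sum fun a ha => ?_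
          have h1 := (hcon a (mem_filter.1 ha).2).le
          have h2 : |η| ≤ 1 := by nlinarith
          have h3 : |ζ| ≤ 1 := by nlinarith
          rw [abs_mul, abs_mul, abs_pow, abs_pow]
          have h4 : |η| ^ (a 0 : ℕ) ≤ 1 := pow_le_one₀ (abs_nonneg _) h2
          have h5 : |ζ| ^ (a 1 : ℕ) ≤ 1 := pow_le_one₀ (abs_nonneg _) h3
          have h6 : |η| ^ (a 0 : ℕ) * |ζ| ^ (a 1 : ℕ) ≤ 1 := by
            calc _ ≤ 1 * 1 := mul_le_mul h4 h5 (by positivity) (by norm_num)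
              _ = 1 := one_mul _
          calc |c a| * (|η| ^ (a 0 : ℕ) * |ζ| ^ (a 1 : ℕ)) ≤ |c a| * 1 :=
                mul_le_mul_of_nonneg_left h6 (abs_nonneg _)
            _ ≤ _ := by rw [mul_one]; exact h1
      _ = ((univ.filter (fun a : Fin 2 → Fin (K + 1) => od a ≤ r)).card : ℝ) *
          (B₀ / (4 * ((K : ℝ) + 1) ^ 2)) := by rw [sum_const, nsmul_eq_mul]
      _ ≤ ((K : ℝ) + 1) ^ 2 * (B₀ / (4 * ((K : ℝ) + 1) ^ 2)) := by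
          refine mul_le_mul_of_nonneg_right ?_ (by positivity)
          rw [← crd (K := K)]
          exact_mod_cast card_filter_le _ _
      _ = B₀ / 4 := by field_simp
  rw [← e2] at hB
  have := hB.trans (abs_add_le _ _)
  linarith

/-- The value of a polynomial at a small point, from the coefficients of low order. -/
theorem val_le {K r : ℕ} {c : (Fin 2 → Fin (K + 1)) → ℝ} {lam τ η ζ M : ℝ} (hlam : 0 < lam)
    (hτ : 0 ≤ τ) (hτ1 : τ ≤ 1) (hM : 0 ≤ M) (hc : ∀ a, |c a| * lam ^ od a ≤ 1)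
    (hη : |η| ≤ τ * lam) (hζ : |ζ| ≤ τ * lam)
    (hlow : ∀ a, od a ≤ r → |c a| * (τ * lam) ^ od a ≤ M) :
    |∑ a, c a * (η ^ (a 0 : ℕ) * ζ ^ (a 1 : ℕ))| ≤
      ((K : ℝ) + 1) ^ 2 * M + ((K : ℝ) + 1) ^ 2 * τ ^ (r + 1) := by
  classical
  have e2 := sum_filter_add_sum_filter_not univ
    (fun a : Fin 2 → Fin (K + 1) => od a ≤ r)
    (fun a => c a * (η ^ (a 0 : ℕ) * ζ ^ (a 1 : ℕ)))
  rw [← e2]
  refine (abs_add_le _ _).trans (add_le_add ?_ (tail_le hlam hτ hτ1 hc hη hζ))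
  refine (abs_sum_le_sum_abs _ _).trans ?_
  calc _ ≤ ∑ _a ∈ univ.filter (fun a : Fin 2 → Fin (K + 1) => od a ≤ r), M := by
        refine sum_le_sum fun a ha => ?_
        refine le_trans ?_ (hlow a (mem_filter.1 ha).2)
        have h1 : |η| ^ (a 0 : ℕ) ≤ (τ * lam) ^ (a 0 : ℕ) :=
          pow_le_pow_left₀ (abs_nonneg _) hη _
        have h2 : |ζ| ^ (a 1 : ℕ) ≤ (τ * lam) ^ (a 1 : ℕ) :=
          pow_le_pow_left₀ (abs_nonneg _) hζ _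
        rw [abs_mul, abs_mul, abs_pow, abs_pow]
        unfold od
        rw [pow_add]
        exact mul_le_mul_of_nonneg_left (mul_le_mul h1 h2 (by positivity) (by positivity))
          (abs_nonneg _)
    _ = ((univ.filter (fun a : Fin 2 → Fin (K + 1) => od a ≤ r)).card : ℝ) * M := by
        rw [sum_const, nsmul_eq_mul]
    _ ≤ ((K : ℝ) + 1) ^ 2 * M := by
        refine mul_le_mul_of_nonneg_right ?_ hM
        rw [← crd (K := K)]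
        exact_mod_cast card_filter_le _ _

/-- The product of three numbers in the unit interval. -/
theorem one3 {a b c : ℝ} (ha : 0 ≤ a) (hb : 0 ≤ b) (ha1 : a ≤ 1) (hb1 : b ≤ 1)
    (hc1 : c ≤ 1) : a * b * c ≤ 1 := by
  have h1 : a * b ≤ 1 := mul_le_one₀ ha1 hb hb1
  calc a * b * c ≤ a * b * 1 := mul_le_mul_of_nonneg_left hc1 (mul_nonneg ha hb)
    _ ≤ 1 := by rw [mul_one]; exact h1

/-- The numbers of the precision. -/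
theorem num_X {lam κ κ₂ ρ' B₀ ε' X : ℝ} (hlam : 0 < lam) (hlam1 : lam ≤ 1) (hκ : 0 < κ)
    (hκ1 : κ ≤ 1) (hκ₂ : 0 < κ₂) (hκ₂1 : κ₂ ≤ 1) (hρ' : 0 < ρ') (hρ'1 : ρ' ≤ 1) (hB : 0 < B₀)
    (hB1 : B₀ ≤ 1) (hε' : 0 < ε') (hε'1 : ε' ≤ 1) (hX : X = lam * κ * κ₂ * ρ' * B₀ * ε') :
    0 < X ∧ X ≤ 1 ∧ X ≤ lam * κ * B₀ ∧ X ≤ κ * κ₂ * ρ' ∧ X ≤ lam ∧ X ≤ B₀ ∧ X ≤ κ ∧ X ≤ ε' := by
  have h0 : 0 < X := by rw [hX]; positivity
  have a1 : X ≤ lam * κ * B₀ := by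
    rw [hX, show lam * κ * κ₂ * ρ' * B₀ * ε' = (lam * κ * B₀) * (κ₂ * ρ' * ε') by ring]
    exact mul_le_of_le_one_right (by positivity) (one3 hκ₂.le hρ'.le hκ₂1 hρ'1 hε'1)
  have a2 : X ≤ κ * κ₂ * ρ' := by
    rw [hX, show lam * κ * κ₂ * ρ' * B₀ * ε' = (κ * κ₂ * ρ') * (lam * B₀ * ε') by ring]
    exact mul_le_of_le_one_right (by positivity) (one3 hlam.le hB.le hlam1 hB1 hε'1)
  have a3 : X ≤ lam := by
    refine a1.trans ?_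
    rw [show lam * κ * B₀ = lam * (1 * κ * B₀) by ring]
    exact mul_le_of_le_one_right hlam.le (one3 zero_le_one hκ.le le_rfl hκ1 hB1)
  have a4 : X ≤ B₀ := by
    refine a1.trans ?_
    rw [show lam * κ * B₀ = B₀ * (1 * lam * κ) by ring]
    exact mul_le_of_le_one_right hB.le (one3 zero_le_one hlam.le le_rfl hlam1 hκ1)
  have a5 : X ≤ κ := by
    refine a1.trans ?_
    rw [show lam * κ * B₀ = κ * (1 * lam * B₀) by ring]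
    exact mul_le_of_le_one_right hκ.le (one3 zero_le_one hlam.le le_rfl hlam1 hB1)
  have a6 : X ≤ ε' := by
    rw [hX]
    have h1 : lam * κ * κ₂ ≤ 1 := one3 hlam.le hκ.le hlam1 hκ1 hκ₂1
    have h2 : lam * κ * κ₂ * ρ' * B₀ ≤ 1 :=
      one3 (by positivity) hρ'.le h1 hρ'1 hB1
    exact mul_le_of_le_one_left hε'.le h2
  exact ⟨h0, a3.trans hlam1, a1, a2, a3, a4, a5, a6⟩

/-- Consequences of the hypothesis about the order. -/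
theorem num_ord {lam rho₀ κ κ₂ ρ' Bd H B₀ C : ℝ} {r : ℕ} (hlam : 0 < lam) (hlam1 : lam ≤ 1)
    (hrho : 0 < rho₀) (hκ : 0 < κ) (hκr : κ ≤ rho₀) (hκ₂ : 0 < κ₂) (hκ₂1 : κ₂ ≤ 1)
    (hρ' : 0 < ρ') (hρ'1 : ρ' ≤ 1) (hBd : 1 ≤ Bd) (hH : 1 ≤ H) (hB : 0 < B₀) (hB1 : B₀ ≤ 1)
    (hC : 4 ^ (r + 1) ≤ C)
    {N : ℕ} (hN : 2 * r + 1 ≤ N)
    (hno : C * H * (rho₀ / κ) ^ r * (Bd / lam) ^ N * rho₀ ^ (r + 1) ≤
      (ρ' * κ₂) ^ N * B₀) :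
    C * (H * (rho₀ / κ) ^ r * (Bd ^ r * (Bd * rho₀ / lam) ^ (r + 1))) ≤ (ρ' * κ₂) ^ r * B₀ ∧
      C * (Bd * rho₀ / lam) ^ (r + 1) ≤ B₀ ∧ Bd * rho₀ / lam ≤ 1 / 4 := by
  have hC0 : 0 < C := lt_of_lt_of_le (by positivity) hC
  have hrk : 1 ≤ (rho₀ / κ) ^ r := one_le_pow₀ ((one_le_div hκ).2 hκr)
  have hBd0 : 0 < Bd := by linarith
  have hT0 : 0 < Bd * rho₀ / lam := by positivity
  have hBl : 1 ≤ Bd / lam := (one_le_div hlam).2 (hlam1.trans hBd)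
  have hH0 : 0 < H := by linarith
  have hBr : 1 ≤ Bd ^ r := one_le_pow₀ hBd
  have hρκ : (ρ' * κ₂) ^ r ≤ 1 :=
    pow_le_one₀ (by positivity) (mul_le_one₀ hρ'1 hκ₂.le hκ₂1)
  have g1 : C * (H * (rho₀ / κ) ^ r * (Bd ^ r * (Bd * rho₀ / lam) ^ (r + 1))) ≤
      (ρ' * κ₂) ^ r * B₀ := by
    have hno' : C * H * (rho₀ / κ) ^ r * (Bd / lam) ^ (2 * r + 1) * rho₀ ^ (r + 1) ≤
        (ρ' * κ₂) ^ r * B₀ := by
      have a1 : (Bd / lam) ^ (2 * r + 1) ≤ (Bd / lam) ^ N := pow_le_pow_right₀ hBl hN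
      have a2 : (ρ' * κ₂) ^ N ≤ (ρ' * κ₂) ^ r :=
        pow_le_pow_of_le_one (by positivity) (mul_le_one₀ hρ'1 hκ₂.le hκ₂1) (by omega)
      calc _ ≤ C * H * (rho₀ / κ) ^ r * (Bd / lam) ^ N * rho₀ ^ (r + 1) := by gcongr
        _ ≤ (ρ' * κ₂) ^ N * B₀ := hno
        _ ≤ (ρ' * κ₂) ^ r * B₀ := mul_le_mul_of_nonneg_right a2 hB.le
    refine le_trans ?_ hno'
    have e1 : C * H * (rho₀ / κ) ^ r * (Bd / lam) ^ (2 * r + 1) * rho₀ ^ (r + 1) =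
        C * (H * (rho₀ / κ) ^ r * ((Bd / lam) ^ r * (Bd * rho₀ / lam) ^ (r + 1))) := by
      rw [show 2 * r + 1 = r + (r + 1) by ring, pow_add, mul_div_right_comm Bd rho₀ lam,
        mul_pow (Bd / lam) rho₀ (r + 1)]
      ring
    rw [e1]
    have h1 : Bd ^ r ≤ (Bd / lam) ^ r := by
      refine pow_le_pow_left₀ hBd0.le ?_ _
      rw [le_div_iff₀ hlam]
      exact mul_le_of_le_one_right hBd0.le hlam1
    gcongr
  have g2 : C * (Bd * rho₀ / lam) ^ (r + 1) ≤ B₀ := by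
    have h2 : (Bd * rho₀ / lam) ^ (r + 1) ≤
        H * (rho₀ / κ) ^ r * (Bd ^ r * (Bd * rho₀ / lam) ^ (r + 1)) := by
      have h3 : 1 ≤ H * (rho₀ / κ) ^ r := one_le_mul_of_one_le_of_one_le hH hrk
      have h4 : (Bd * rho₀ / lam) ^ (r + 1) ≤ Bd ^ r * (Bd * rho₀ / lam) ^ (r + 1) :=
        le_mul_of_one_le_left (by positivity) hBr
      exact h4.trans (le_mul_of_one_le_left (by positivity) h3)
    calc _ ≤ C * (H * (rho₀ / κ) ^ r * (Bd ^ r * (Bd * rho₀ / lam) ^ (r + 1))) :=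
          mul_le_mul_of_nonneg_left h2 hC0.le
      _ ≤ (ρ' * κ₂) ^ r * B₀ := g1
      _ ≤ B₀ := mul_le_of_le_one_left hB.le hρκ
  refine ⟨g1, g2, ?_⟩
  by_contra hneg
  rw [not_le] at hneg
  have h1 : (1 / 4 : ℝ) ^ (r + 1) < (Bd * rho₀ / lam) ^ (r + 1) :=
    pow_lt_pow_left₀ hneg (by norm_num) (Nat.succ_ne_zero r)
  have h2 : (4 : ℝ) ^ (r + 1) * (Bd * rho₀ / lam) ^ (r + 1) ≤ 1 :=
    (mul_le_mul_of_nonneg_right hC (by positivity)).trans (g2.trans hB1)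
  have h4 : (4 : ℝ) ^ (r + 1) * (1 / 4 : ℝ) ^ (r + 1) = 1 := by
    rw [← mul_pow]; norm_num
  have h5 : (4 : ℝ) ^ (r + 1) * (1 / 4 : ℝ) ^ (r + 1) <
      (4 : ℝ) ^ (r + 1) * (Bd * rho₀ / lam) ^ (r + 1) :=
    mul_lt_mul_of_pos_left h1 (by positivity)
  linarith

/-- The value at the end. -/
theorem num_fin {lam rho₀ κ κ₂ ρ' Bd H B₀ ε ρ k2 k3 CL : ℝ} {r : ℕ} (hlam : 0 < lam)
    (hrho : 0 < rho₀) (hrho1 : rho₀ ≤ 1) (hκ : 0 < κ) (hκ₂ : 0 < κ₂) (hρ' : 0 < ρ')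
    (hBd : 1 ≤ Bd) (hH : 1 ≤ H) (hε : 0 ≤ ε) (hρ : 0 ≤ ρ) (hk2 : 0 ≤ k2) (hk3 : 0 ≤ k3)
    (hCL : 0 ≤ CL)
    (h1 : 5 * k2 * CL * 2 ^ r * (H * Bd ^ r) * ε ≤ B₀ * (κ * κ₂ * ρ') ^ r)
    (h2 : 10 * k2 * CL * k3 * 2 ^ r * (H * Bd ^ r) * ρ ≤ B₀ * lam * (κ * κ₂ * ρ') ^ r)
    (h3 : 5 * k2 * k2 * CL * 2 ^ (2 * r + 1) * (H * (rho₀ / κ) ^ r *
      (Bd ^ r * (Bd * rho₀ / lam) ^ (r + 1))) ≤ (ρ' * κ₂) ^ r * B₀) :
    k2 * (H * (CL * ((ε + k3 * (2 * ρ) / lam + k2 * (Bd * (2 * rho₀) / lam) ^ (r + 1)) *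
      (2 * rho₀ / (κ * κ₂)) ^ r * (Bd / ρ') ^ r))) ≤ 3 / 5 * B₀ := by
  have hBd0 : 0 < Bd := by linarith
  have hH0 : 0 < H := by linarith
  have hD : 0 < (κ * κ₂ * ρ') ^ r := by positivity
  have hD2 : 0 < (ρ' * κ₂) ^ r := by positivity
  set Z : ℝ := (2 * rho₀ / (κ * κ₂)) ^ r * (Bd / ρ') ^ r with hZ
  have hZ0 : 0 ≤ Z := by positivity
  have hZa : Z ≤ 2 ^ r * Bd ^ r / (κ * κ₂ * ρ') ^ r := by
    rw [hZ, ← mul_pow, ← mul_pow, ← div_pow]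
    refine pow_le_pow_left₀ (by positivity) ?_ _
    rw [div_mul_div_comm]
    refine div_le_div_of_nonneg_right ?_ (by positivity)
    have : 2 * rho₀ * Bd ≤ 2 * 1 * Bd := by gcongr
    linarith
  have hZb : Z = 2 ^ r * ((rho₀ / κ) ^ r * Bd ^ r) / (ρ' * κ₂) ^ r := by
    rw [hZ, ← mul_pow, ← mul_pow, ← mul_pow, ← div_pow]
    congr 1
    field_simp
  have g1 : k2 * (H * (CL * (ε * Z))) ≤ B₀ / 5 := by
    calc _ ≤ k2 * (H * (CL * (ε * (2 ^ r * Bd ^ r / (κ * κ₂ * ρ') ^ r)))) := by gcongr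
      _ = (5 * k2 * CL * 2 ^ r * (H * Bd ^ r) * ε) / (κ * κ₂ * ρ') ^ r / 5 := by
          field_simp
      _ ≤ (B₀ * (κ * κ₂ * ρ') ^ r) / (κ * κ₂ * ρ') ^ r / 5 := by gcongr
      _ = B₀ / 5 := by rw [mul_div_cancel_right₀ _ hD.ne']
  have g2 : k2 * (H * (CL * (k3 * (2 * ρ) / lam * Z))) ≤ B₀ / 5 := by
    calc _ ≤ k2 * (H * (CL * (k3 * (2 * ρ) / lam * (2 ^ r * Bd ^ r / (κ * κ₂ * ρ') ^ r)))) := by
          gcongr
      _ = (10 * k2 * CL * k3 * 2 ^ r * (H * Bd ^ r) * ρ) / (lam * (κ * κ₂ * ρ') ^ r) / 5 := by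
          field_simp; ring
      _ ≤ (B₀ * lam * (κ * κ₂ * ρ') ^ r) / (lam * (κ * κ₂ * ρ') ^ r) / 5 := by gcongr
      _ = B₀ / 5 := by rw [mul_assoc B₀, mul_div_cancel_right₀ _ (by positivity)]
  have g3 : k2 * (H * (CL * (k2 * (Bd * (2 * rho₀) / lam) ^ (r + 1) * Z))) ≤ B₀ / 5 := by
    rw [hZb]
    calc _ = (5 * k2 * k2 * CL * 2 ^ (2 * r + 1) * (H * (rho₀ / κ) ^ r *
          (Bd ^ r * (Bd * rho₀ / lam) ^ (r + 1)))) / (ρ' * κ₂) ^ r / 5 := by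
          rw [show Bd * (2 * rho₀) / lam = 2 * (Bd * rho₀ / lam) by ring, mul_pow 2,
            show 2 * r + 1 = (r + 1) + r by ring, pow_add 2 (r + 1) r]
          field_simp
      _ ≤ ((ρ' * κ₂) ^ r * B₀) / (ρ' * κ₂) ^ r / 5 := by gcongr
      _ = B₀ / 5 := by rw [mul_div_cancel_left₀ _ hD2.ne']
  have e : k2 * (H * (CL * ((ε + k3 * (2 * ρ) / lam + k2 * (Bd * (2 * rho₀) / lam) ^ (r + 1)) *
      (2 * rho₀ / (κ * κ₂)) ^ r * (Bd / ρ') ^ r))) = k2 * (H * (CL * (ε * Z))) +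
      k2 * (H * (CL * (k3 * (2 * ρ) / lam * Z))) +
      k2 * (H * (CL * (k2 * (Bd * (2 * rho₀) / lam) ^ (r + 1) * Z))) := by
    rw [hZ]; ring
  rw [e]
  linarith

/-- The precision, from the hypothesis. -/
theorem num_pre {r N₁ : ℕ} {lam κ κ₂ ρ' B₀ ε' X H Bd ε C CF C₂ k2 c₂ ρ : ℝ} (hX0 : 0 < X)
    (hX1 : X ≤ 1) (ha : X ≤ lam * κ * B₀) (hb : X ≤ κ * κ₂ * ρ') (hl : X ≤ lam) (hB : X ≤ B₀)
    (hκX : X ≤ κ) (hεX : X ≤ ε') (hH : 1 ≤ H) (hBd : 1 ≤ Bd) (hε : 0 ≤ ε) (hCF : 0 ≤ CF)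
    (hC₂ : 9600 ≤ C₂) (hk2 : 1 ≤ k2) (hc₂ : 0 ≤ c₂) (hC1 : CF * (8 * k2 * C₂) ^ N₁ ≤ C)
    (hC2 : c₂ ≤ C) (hnp : C * (Bd * H) ^ ((2 * r + 8) * (N₁ + 1)) * ε ≤ X ^ ((2 * r + 8) * (N₁ + 1)))
    (hρ : ρ = X ^ (r + 6) / (C₂ * H * Bd ^ (r + 4))) :
    0 < ρ ∧ ρ ≤ lam / 4 ∧ ρ ≤ 1 ∧ 9600 * Bd ^ 3 * ρ ≤ ε' * κ ^ 5 ∧
      CF * H ^ N₁ * ε ≤ (lam * (B₀ / (4 * k2)) * (κ / 2) * (ρ / Bd)) ^ N₁ ∧
      c₂ * (H * Bd ^ r) * ε ≤ B₀ * (κ * κ₂ * ρ') ^ r ∧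
      C₂ * (H * Bd ^ r) * ρ ≤ B₀ * lam * (κ * κ₂ * ρ') ^ r := by
  have hBd0 : 0 < Bd := by linarith
  have hH0 : 0 < H := by linarith
  have hC₂0 : 0 < C₂ := by linarith
  have hk20 : 0 < k2 := by linarith
  have hκ0 : 0 < κ := hX0.trans_le hκX
  have hlam0 : 0 < lam := hX0.trans_le hl
  have hB0 : 0 < B₀ := hX0.trans_le hB
  have hε0 : 0 < ε' := hX0.trans_le hεX
  have hden : 0 < C₂ * H * Bd ^ (r + 4) := by positivity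
  have hρ0 : 0 < ρ := by rw [hρ]; positivity
  have hρd : ρ * (C₂ * H * Bd ^ (r + 4)) = X ^ (r + 6) := by
    rw [hρ]; field_simp
  have hBp : ∀ n : ℕ, 1 ≤ Bd ^ n := fun n => one_le_pow₀ hBd
  -- the denominator is large
  have d1 : 4 ≤ C₂ * H * Bd ^ (r + 4) := by
    have : C₂ * 1 * 1 ≤ C₂ * H * Bd ^ (r + 4) := by
      have := hBp (r + 4)
      gcongr
    linarith
  have g1 : ρ ≤ X / 4 := by
    rw [hρ]
    have h1 : X ^ (r + 6) ≤ X := by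
      calc X ^ (r + 6) ≤ X ^ 1 := pow_le_pow_of_le_one hX0.le hX1 (by omega)
        _ = X := pow_one X
    exact div_le_div₀ hX0.le h1 (by norm_num) d1
  have g3 : 9600 * Bd ^ 3 * ρ ≤ ε' * κ ^ 5 := by
    have h1 : 9600 * Bd ^ 3 * ρ ≤ (C₂ * H * Bd ^ (r + 4)) * ρ := by
      refine mul_le_mul_of_nonneg_right ?_ hρ0.le
      have h2 : Bd ^ 3 ≤ Bd ^ (r + 4) := pow_le_pow_right₀ hBd (by omega)
      calc 9600 * Bd ^ 3 = 9600 * 1 * Bd ^ 3 := by ring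
        _ ≤ C₂ * H * Bd ^ (r + 4) := by gcongr
    have h2 : X ^ (r + 6) ≤ ε' * κ ^ 5 := by
      calc X ^ (r + 6) ≤ X ^ 6 := pow_le_pow_of_le_one hX0.le hX1 (by omega)
        _ = X * X ^ 5 := by ring
        _ ≤ ε' * κ ^ 5 := by gcongr
    calc _ ≤ (C₂ * H * Bd ^ (r + 4)) * ρ := h1
      _ = X ^ (r + 6) := by rw [mul_comm]; exact hρd
      _ ≤ _ := h2
  have hC0 : 0 ≤ C := hc₂.trans hC2
  have g5 : c₂ * (H * Bd ^ r) * ε ≤ B₀ * (κ * κ₂ * ρ') ^ r := by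
    have h1 : H * Bd ^ r ≤ (Bd * H) ^ ((2 * r + 8) * (N₁ + 1)) := by
      rw [mul_pow, mul_comm]
      have e1 : H ≤ H ^ ((2 * r + 8) * (N₁ + 1)) := le_self_pow₀ hH (by positivity)
      have e2 : Bd ^ r ≤ Bd ^ ((2 * r + 8) * (N₁ + 1)) := pow_le_pow_right₀ hBd (by nlinarith)
      exact mul_le_mul e2 e1 hH0.le (by positivity)
    have h2 : X ^ ((2 * r + 8) * (N₁ + 1)) ≤ B₀ * (κ * κ₂ * ρ') ^ r := by
      calc X ^ ((2 * r + 8) * (N₁ + 1)) ≤ X ^ (r + 1) :=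
            pow_le_pow_of_le_one hX0.le hX1 (by nlinarith)
        _ = X * X ^ r := by ring
        _ ≤ B₀ * (κ * κ₂ * ρ') ^ r := by gcongr
    calc _ ≤ C * (Bd * H) ^ ((2 * r + 8) * (N₁ + 1)) * ε := by gcongr
      _ ≤ _ := hnp
      _ ≤ _ := h2
  have g6 : C₂ * (H * Bd ^ r) * ρ ≤ B₀ * lam * (κ * κ₂ * ρ') ^ r := by
    have h1 : C₂ * (H * Bd ^ r) * ρ ≤ (C₂ * H * Bd ^ (r + 4)) * ρ := by
      refine mul_le_mul_of_nonneg_right ?_ hρ0.le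
      rw [← mul_assoc]
      exact mul_le_mul_of_nonneg_left (pow_le_pow_right₀ hBd (by omega)) (by positivity)
    calc _ ≤ (C₂ * H * Bd ^ (r + 4)) * ρ := h1
      _ = X ^ (r + 6) := by rw [mul_comm]; exact hρd
      _ ≤ X ^ (r + 2) := pow_le_pow_of_le_one hX0.le hX1 (by omega)
      _ = X * X * X ^ r := by ring
      _ ≤ B₀ * lam * (κ * κ₂ * ρ') ^ r := by gcongr
  have g4 : CF * H ^ N₁ * ε ≤ (lam * (B₀ / (4 * k2)) * (κ / 2) * (ρ / Bd)) ^ N₁ := by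
    have hQ : 0 < 8 * k2 * C₂ * H * Bd ^ (r + 5) := by positivity
    have e1 : lam * (B₀ / (4 * k2)) * (κ / 2) * (ρ / Bd) =
        (lam * κ * B₀) * X ^ (r + 6) / (8 * k2 * C₂ * H * Bd ^ (r + 5)) := by
      rw [← hρd, pow_succ Bd (r + 4)]
      field_simp
      ring
    rw [e1]
    have h1 : (X ^ (r + 7) / (8 * k2 * C₂ * H * Bd ^ (r + 5))) ^ N₁ ≤
        ((lam * κ * B₀) * X ^ (r + 6) / (8 * k2 * C₂ * H * Bd ^ (r + 5))) ^ N₁ := by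
      refine pow_le_pow_left₀ (by positivity) ?_ _
      refine div_le_div_of_nonneg_right ?_ hQ.le
      rw [pow_succ' X (r + 6)]
      gcongr
    refine le_trans ?_ h1
    rw [div_pow, le_div_iff₀ (by positivity), ← pow_mul]
    have h2 : CF * H ^ N₁ * ε * (8 * k2 * C₂ * H * Bd ^ (r + 5)) ^ N₁ =
        (CF * (8 * k2 * C₂) ^ N₁) * (H ^ (2 * N₁) * Bd ^ ((r + 5) * N₁)) * ε := by
      rw [mul_pow, mul_pow, ← pow_mul, two_mul, pow_add]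
      ring
    rw [h2]
    have h3 : H ^ (2 * N₁) * Bd ^ ((r + 5) * N₁) ≤ (Bd * H) ^ ((2 * r + 8) * (N₁ + 1)) := by
      rw [mul_pow, mul_comm]
      exact mul_le_mul (pow_le_pow_right₀ hBd (by nlinarith)) (pow_le_pow_right₀ hH
        (by nlinarith)) (by positivity) (by positivity)
    calc _ ≤ C * (Bd * H) ^ ((2 * r + 8) * (N₁ + 1)) * ε := by gcongr
      _ ≤ _ := hnp
      _ ≤ X ^ ((r + 7) * N₁) := pow_le_pow_of_le_one hX0.le hX1 (by nlinarith)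
  exact ⟨hρ0, by linarith, by linarith, g3, g4, g5, g6⟩

end Pool.PLN
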