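import Pool.Agent.H67.PLN.QT
import Pool.Agent.H20.KAL.TAY

/-!
# Lemma PLANE: tools for the final contradiction

`cof_sc`: the coefficients of a polynomial which is small on an interval. `lgr`: the coefficients
of a polynomial which is small at separated points. `tail_le`, `lip_le`: the terms of high order,
a change of the last variable.
-/

set_option autoImplicit false

namespace Pool.PLN

open Finset

/-- The coefficients of a polynomial which is small on an interval around `0`. -/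
theorem cof_sc (K : ℕ) : ∃ C : ℝ, 1 ≤ C ∧ ∀ (q : Polynomial ℝ) (M lam : ℝ), q.natDegree ≤ K →
    0 < lam → (∀ u : ℝ, |u| ≤ lam → |q.eval u| ≤ M) → ∀ m, |q.coeff m| * lam ^ m ≤ C * M := by
  obtain ⟨C, hC0, hC⟩ := KAL.TAY.coef_bound K
  refine ⟨C + 1, by linarith, ?_⟩
  intro q M lam hq hlam hM m
  have hM0 : 0 ≤ M := (abs_nonneg _).trans (hM 0 (by rw [abs_zero]; exact hlam.le))
  rcases le_or_gt m K with hm | hm
  · have h1 : (q.comp (Polynomial.C lam * Polynomial.X)).natDegree ≤ K := by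
      refine Polynomial.natDegree_comp_le.trans ?_
      have : (Polynomial.C lam * Polynomial.X : Polynomial ℝ).natDegree ≤ 1 := by
        refine Polynomial.natDegree_mul_le.trans ?_
        rw [Polynomial.natDegree_C, Polynomial.natDegree_X]
      calc _ ≤ K * 1 := Nat.mul_le_mul hq this
        _ = K := mul_one _
    have h2 := hC _ M h1 (fun t h0 h1 => by
      rw [Polynomial.eval_comp, Polynomial.eval_mul, Polynomial.eval_C, Polynomial.eval_X]
      refine hM _ ?_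
      rw [abs_mul, abs_of_pos hlam, abs_of_nonneg h0]
      nlinarith) m hm
    rw [Polynomial.comp_C_mul_X_coeff, abs_mul, abs_of_pos (pow_pos hlam m)] at h2
    refine h2.trans ?_
    nlinarith
  · rw [Polynomial.coeff_eq_zero_of_natDegree_lt (lt_of_le_of_lt hq hm), abs_zero, zero_mul]
    positivity

/-- The coefficients of a polynomial which is small at separated points. -/
theorem lgr (d : ℕ) : ∃ C : ℝ, 1 ≤ C ∧ ∀ (q : Polynomial ℝ) (x : Fin (d + 1) → ℝ) (M L κ : ℝ),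
    q.natDegree ≤ d → 0 < κ → 0 < L → 0 ≤ M → (∀ i, |x i| ≤ L) →
    (∀ i j, i ≠ j → κ ≤ |x i - x j|) → (∀ i, |q.eval (x i)| ≤ M) →
    ∀ m, |q.coeff m| * L ^ m ≤ C * (M * (L / κ) ^ d) := by
  classical
  obtain ⟨C, hC1, hC⟩ := cof_sc d
  have hC0 : 0 ≤ C := by linarith
  refine ⟨C * ((d + 1 : ℕ) * 2 ^ d), ?_, ?_⟩
  · have h1 : (1 : ℝ) ≤ ((d + 1 : ℕ) : ℝ) := by exact_mod_cast Nat.succ_le_succ (Nat.zero_le d)
    have h2 : (1 : ℝ) ≤ 2 ^ d := one_le_pow₀ (by norm_num)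
    have : (1 : ℝ) ≤ ((d + 1 : ℕ) : ℝ) * 2 ^ d := by nlinarith
    nlinarith
  intro q x M L κ hq hκ hL hM0 hx hs hM m
  have hinj : Set.InjOn x ((Finset.univ : Finset (Fin (d + 1))) : Set (Fin (d + 1))) := by
    intro i _ j _ hij
    by_contra hne
    have := hs i j hne
    rw [hij, sub_self, abs_zero] at this
    linarith
  have hdeg : q.degree < ((Finset.univ : Finset (Fin (d + 1))).card : WithBot ℕ) := by
    rw [Finset.card_univ, Fintype.card_fin]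
    exact lt_of_le_of_lt Polynomial.degree_le_natDegree (by exact_mod_cast Nat.lt_succ_of_le hq)
  have h1 : q = Lagrange.interpolate Finset.univ x (fun i => q.eval (x i)) :=
    Lagrange.eq_interpolate hinj hdeg
  have hbas : ∀ (i : Fin (d + 1)) (u : ℝ), |u| ≤ L →
      |(Lagrange.basis Finset.univ x i).eval u| ≤ (2 * L / κ) ^ d := by
    intro i u hu
    unfold Lagrange.basis
    rw [Polynomial.eval_prod, Finset.abs_prod]
    have hc : (Finset.univ.erase i).card = d := by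
      rw [Finset.card_erase_of_mem (Finset.mem_univ _), Finset.card_univ, Fintype.card_fin]
      rfl
    calc _ ≤ ∏ j ∈ Finset.univ.erase i, (2 * L / κ) := by
          refine Finset.prod_le_prod (fun j _ => abs_nonneg _) fun j hj => ?_
          have hne : j ≠ i := Finset.ne_of_mem_erase hj
          unfold Lagrange.basisDivisor
          rw [Polynomial.eval_mul, Polynomial.eval_C, Polynomial.eval_sub, Polynomial.eval_X,
            Polynomial.eval_C, abs_mul, abs_inv, div_eq_inv_mul]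
          have h3 : |u - x j| ≤ 2 * L := by
            calc _ ≤ |u| + |x j| := abs_sub _ _
              _ ≤ 2 * L := by linarith [hx j]
          have h4 : |x i - x j|⁻¹ ≤ κ⁻¹ := inv_anti₀ hκ (hs i j hne.symm)
          exact mul_le_mul h4 h3 (abs_nonneg _) (by positivity)
      _ = (2 * L / κ) ^ d := by rw [Finset.prod_const, hc]
  have hsup : ∀ u : ℝ, |u| ≤ L → |q.eval u| ≤ ((d + 1 : ℕ) : ℝ) * (M * (2 * L / κ) ^ d) := by
    intro u hu
    rw [h1, Lagrange.interpolate_apply, Polynomial.eval_finsetSum]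
    refine (Finset.abs_sum_le_sum_abs _ _).trans ?_
    calc _ ≤ ∑ _i : Fin (d + 1), M * (2 * L / κ) ^ d := by
          refine Finset.sum_le_sum fun i _ => ?_
          rw [Polynomial.eval_mul, Polynomial.eval_C, abs_mul]
          exact mul_le_mul (hM i) (hbas i u hu) (abs_nonneg _) hM0
      _ = _ := by rw [Finset.sum_const, Finset.card_univ, Fintype.card_fin, nsmul_eq_mul]
  refine (hC q _ L hq hL hsup m).trans (le_of_eq ?_)
  rw [mul_div_assoc, mul_pow]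
  ring

/-! ### Sums over the exponents -/

variable {K : ℕ}

/-- The order of a monomial. -/
def od (a : Fin 2 → Fin (K + 1)) : ℕ := (a 0 : ℕ) + a 1

/-- The number of monomials. -/
theorem crd : ((Finset.univ : Finset (Fin 2 → Fin (K + 1))).card : ℝ) = ((K : ℝ) + 1) ^ 2 := by
  rw [Finset.card_univ, Fintype.card_fun, Fintype.card_fin, Fintype.card_fin]
  push_cast
  ring

/-- A single monomial. -/
theorem mon_le {a : Fin 2 → Fin (K + 1)} {c lam τ η ζ : ℝ} (hlam : 0 < lam) (hτ : 0 ≤ τ)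
    (hc : |c| * lam ^ od a ≤ 1) (hη : |η| ≤ τ * lam) (hζ : |ζ| ≤ τ * lam) :
    |c * (η ^ (a 0 : ℕ) * ζ ^ (a 1 : ℕ))| ≤ τ ^ od a := by
  have h1 : |η| ^ (a 0 : ℕ) ≤ (τ * lam) ^ (a 0 : ℕ) := pow_le_pow_left₀ (abs_nonneg _) hη _
  have h2 : |ζ| ^ (a 1 : ℕ) ≤ (τ * lam) ^ (a 1 : ℕ) := pow_le_pow_left₀ (abs_nonneg _) hζ _
  have h3 : |η| ^ (a 0 : ℕ) * |ζ| ^ (a 1 : ℕ) ≤ (τ * lam) ^ od a := by
    unfold od
    rw [pow_add]
    exact mul_le_mul h1 h2 (by positivity) (by positivity)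
  rw [abs_mul, abs_mul, abs_pow, abs_pow]
  calc |c| * (|η| ^ (a 0 : ℕ) * |ζ| ^ (a 1 : ℕ)) ≤ |c| * (τ * lam) ^ od a :=
        mul_le_mul_of_nonneg_left h3 (abs_nonneg _)
    _ = (|c| * lam ^ od a) * τ ^ od a := by rw [mul_pow]; ring
    _ ≤ 1 * τ ^ od a := mul_le_mul_of_nonneg_right hc (by positivity)
    _ = τ ^ od a := one_mul _

/-- The terms of high order. -/
theorem tail_le {c : (Fin 2 → Fin (K + 1)) → ℝ} {lam τ η ζ : ℝ} {r : ℕ} (hlam : 0 < lam)
    (hτ : 0 ≤ τ) (hτ1 : τ ≤ 1) (hc : ∀ a, |c a| * lam ^ od a ≤ 1) (hη : |η| ≤ τ * lam)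
    (hζ : |ζ| ≤ τ * lam) :
    |∑ a ∈ Finset.univ.filter (fun a => ¬ od a ≤ r), c a * (η ^ (a 0 : ℕ) * ζ ^ (a 1 : ℕ))| ≤
      ((K : ℝ) + 1) ^ 2 * τ ^ (r + 1) := by
  refine (Finset.abs_sum_le_sum_abs _ _).trans ?_
  calc _ ≤ ∑ _a ∈ Finset.univ.filter (fun a : Fin 2 → Fin (K + 1) => ¬ od a ≤ r),
        τ ^ (r + 1) := by
        refine Finset.sum_le_sum fun a ha => (mon_le hlam hτ (hc a) hη hζ).trans ?_
        have := (Finset.mem_filter.1 ha).2
        exact pow_le_pow_of_le_one hτ hτ1 (by omega)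
    _ = ((Finset.univ.filter (fun a : Fin 2 → Fin (K + 1) => ¬ od a ≤ r)).card : ℝ) *
        τ ^ (r + 1) := by rw [Finset.sum_const, nsmul_eq_mul]
    _ ≤ ((K : ℝ) + 1) ^ 2 * τ ^ (r + 1) := by
        refine mul_le_mul_of_nonneg_right ?_ (by positivity)
        rw [← crd (K := K)]
        exact_mod_cast Finset.card_filter_le _ _

/-- The difference of two powers. -/
theorem pow_dif {x y L δ : ℝ} (hx : |x| ≤ L) (hy : |y| ≤ L) (h : |x - y| ≤ δ) (n : ℕ) :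
    |x ^ n - y ^ n| * L ≤ (n : ℝ) * L ^ n * δ := by
  have hL : 0 ≤ L := (abs_nonneg _).trans hx
  have hδ : 0 ≤ δ := (abs_nonneg _).trans h
  induction n with
  | zero => simp
  | succ n ih =>
    have e : x ^ (n + 1) - y ^ (n + 1) = x * (x ^ n - y ^ n) + (x - y) * y ^ n := by ring
    have h1 : |x ^ (n + 1) - y ^ (n + 1)| ≤ L * |x ^ n - y ^ n| + δ * L ^ n := by
      rw [e]
      refine (abs_add_le _ _).trans (add_le_add ?_ ?_)
      · rw [abs_mul]; exact mul_le_mul_of_nonneg_right hx (abs_nonneg _)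
      · rw [abs_mul, abs_pow]
        exact mul_le_mul h (pow_le_pow_left₀ (abs_nonneg _) hy _) (by positivity) hδ
    calc |x ^ (n + 1) - y ^ (n + 1)| * L ≤ (L * |x ^ n - y ^ n| + δ * L ^ n) * L :=
          mul_le_mul_of_nonneg_right h1 hL
      _ = L * (|x ^ n - y ^ n| * L) + δ * L ^ (n + 1) := by ring
      _ ≤ L * ((n : ℝ) * L ^ n * δ) + δ * L ^ (n + 1) := by
          gcongr
      _ = ((n + 1 : ℕ) : ℝ) * L ^ (n + 1) * δ := by push_cast; ring

/-- A change of the last variable. -/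
theorem lip_le {c : (Fin 2 → Fin (K + 1)) → ℝ} {lam η ζ ζ' δ : ℝ} (hlam : 0 < lam)
    (hc : ∀ a, |c a| * lam ^ od a ≤ 1) (hη : |η| ≤ lam) (hζ : |ζ| ≤ lam) (hζ' : |ζ'| ≤ lam)
    (h : |ζ - ζ'| ≤ δ) :
    |∑ a, c a * (η ^ (a 0 : ℕ) * ζ ^ (a 1 : ℕ)) - ∑ a, c a * (η ^ (a 0 : ℕ) * ζ' ^ (a 1 : ℕ))| ≤
      ((K : ℝ) + 1) ^ 3 * δ / lam := by
  have hδ : 0 ≤ δ := (abs_nonneg _).trans h
  rw [← Finset.sum_sub_distrib, le_div_iff₀ hlam]
  have h1 : ∀ a : Fin 2 → Fin (K + 1), |c a * (η ^ (a 0 : ℕ) * ζ ^ (a 1 : ℕ)) -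
      c a * (η ^ (a 0 : ℕ) * ζ' ^ (a 1 : ℕ))| * lam ≤ ((K : ℝ) + 1) * δ := by
    intro a
    have e : c a * (η ^ (a 0 : ℕ) * ζ ^ (a 1 : ℕ)) - c a * (η ^ (a 0 : ℕ) * ζ' ^ (a 1 : ℕ)) =
      c a * (η ^ (a 0 : ℕ) * (ζ ^ (a 1 : ℕ) - ζ' ^ (a 1 : ℕ))) := by ring
    rw [e, abs_mul, abs_mul, abs_pow]
    have h2 := pow_dif hζ hζ' h (a 1 : ℕ)
    have h3 : |η| ^ (a 0 : ℕ) ≤ lam ^ (a 0 : ℕ) := pow_le_pow_left₀ (abs_nonneg _) hη _
    have hk : ((a 1 : ℕ) : ℝ) ≤ (K : ℝ) + 1 := by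
      have : (a 1 : ℕ) ≤ K + 1 := by omega
      exact_mod_cast this
    calc |c a| * (|η| ^ (a 0 : ℕ) * |ζ ^ (a 1 : ℕ) - ζ' ^ (a 1 : ℕ)|) * lam =
          |c a| * |η| ^ (a 0 : ℕ) * (|ζ ^ (a 1 : ℕ) - ζ' ^ (a 1 : ℕ)| * lam) := by ring
      _ ≤ |c a| * lam ^ (a 0 : ℕ) * (((a 1 : ℕ) : ℝ) * lam ^ (a 1 : ℕ) * δ) := by
          refine mul_le_mul (mul_le_mul_of_nonneg_left h3 (abs_nonneg _)) h2 (by positivity)
            (by positivity)
      _ = (|c a| * lam ^ od a) * (((a 1 : ℕ) : ℝ) * δ) := by unfold od; rw [pow_add]; ring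
      _ ≤ 1 * (((a 1 : ℕ) : ℝ) * δ) := mul_le_mul_of_nonneg_right (hc a) (by positivity)
      _ ≤ ((K : ℝ) + 1) * δ := by
          rw [one_mul]; exact mul_le_mul_of_nonneg_right hk hδ
  calc _ ≤ (∑ a, |c a * (η ^ (a 0 : ℕ) * ζ ^ (a 1 : ℕ)) -
        c a * (η ^ (a 0 : ℕ) * ζ' ^ (a 1 : ℕ))|) * lam :=
        mul_le_mul_of_nonneg_right (Finset.abs_sum_le_sum_abs _ _) hlam.le
    _ = ∑ a, |c a * (η ^ (a 0 : ℕ) * ζ ^ (a 1 : ℕ)) -
        c a * (η ^ (a 0 : ℕ) * ζ' ^ (a 1 : ℕ))| * lam := by rw [Finset.sum_mul]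
    _ ≤ ∑ _a : Fin 2 → Fin (K + 1), ((K : ℝ) + 1) * δ := Finset.sum_le_sum fun a _ => h1 a
    _ = ((K : ℝ) + 1) ^ 3 * δ := by
        rw [Finset.sum_const, nsmul_eq_mul, crd]; ring

end Pool.PLN
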