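import Pool.Agent.H67.PLN.Lgr

/-!
# Lemma PLANE: the pieces of the final contradiction

`line_of`: copies close to one line (from the fan statement). `slope_le`: the slope is bounded and
the conic is small on the line. `low_small`: the coefficients of low order of a polynomial which is
small on `r + 1` fans.
-/

set_option autoImplicit false

namespace Pool.PLN

open Finset

variable {K : ℕ}

/-- The coefficients of low order of a polynomial which is small on `r + 1` lines. -/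
theorem low_small (r K : ℕ) : ∃ C : ℝ, 1 ≤ C ∧ ∀ (c : (Fin 2 → Fin (K + 1)) → ℝ)
    (β : Fin (r + 1) → ℝ) (x : Fin (r + 1) → Fin (r + 1) → ℝ) (lam ε₁ κ' ρ' Bd L : ℝ),
    0 < lam → 0 ≤ ε₁ → 0 < κ' → 0 < ρ' → 1 ≤ Bd → 0 < L → Bd * L ≤ lam →
    (∀ a, |c a| * lam ^ od a ≤ 1) → (∀ j, |β j| ≤ Bd) → (∀ j k, j ≠ k → ρ' ≤ |β j - β k|) →
    (∀ j i, |x j i| ≤ L) → (∀ j i i', i ≠ i' → κ' ≤ |x j i - x j i'|) →
    (∀ j i, |∑ a, c a * (x j i ^ (a 0 : ℕ) * (β j * x j i) ^ (a 1 : ℕ))| ≤ ε₁) →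
    ∀ a, od a ≤ r → |c a| * L ^ od a ≤
      C * ((ε₁ + ((K : ℝ) + 1) ^ 2 * (Bd * L / lam) ^ (r + 1)) * (L / κ') ^ r * (Bd / ρ') ^ r) := by
  classical
  obtain ⟨C, hC1, hC⟩ := lgr r
  refine ⟨C * C, by nlinarith, ?_⟩
  intro c β x lam ε₁ κ' ρ' Bd L hlam hε₁ hκ' hρ' hBd hL hBL hc hβ hβs hx hxs hv a ha
  set E : ℝ := ε₁ + ((K : ℝ) + 1) ^ 2 * (Bd * L / lam) ^ (r + 1) with hE
  have hE0 : 0 ≤ E := by positivity
  have hC0 : 0 ≤ C := by linarith
  -- the forms at the slopes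
  have hform : ∀ (j : Fin (r + 1)) (m : ℕ), m ≤ r →
      |∑ a ∈ univ.filter (fun a => od a = m), c a * β j ^ (a 1 : ℕ)| * L ^ m ≤
        C * (E * (L / κ') ^ r) := by
    intro j m hm
    set P : Polynomial ℝ := ∑ a ∈ univ.filter (fun a : Fin 2 → Fin (K + 1) => od a ≤ r),
      Polynomial.C (c a * β j ^ (a 1 : ℕ)) * Polynomial.X ^ od a with hP
    have hdeg : P.natDegree ≤ r := by
      rw [hP]
      refine Polynomial.natDegree_sum_le_of_forall_le _ _ fun a ha => ?_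
      exact (Polynomial.natDegree_C_mul_X_pow_le _ _).trans (mem_filter.1 ha).2
    have heval : ∀ i, |P.eval (x j i)| ≤ E := by
      intro i
      have e1 : P.eval (x j i) = ∑ a ∈ univ.filter (fun a : Fin 2 → Fin (K + 1) => od a ≤ r),
          c a * (x j i ^ (a 0 : ℕ) * (β j * x j i) ^ (a 1 : ℕ)) := by
        rw [hP, Polynomial.eval_finsetSum]
        refine sum_congr rfl fun a _ => ?_
        rw [Polynomial.eval_mul, Polynomial.eval_C, Polynomial.eval_pow, Polynomial.eval_X]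
        unfold od
        rw [pow_add, mul_pow]
        ring
      have e2 := sum_filter_add_sum_filter_not univ
        (fun a : Fin 2 → Fin (K + 1) => od a ≤ r)
        (fun a => c a * (x j i ^ (a 0 : ℕ) * (β j * x j i) ^ (a 1 : ℕ)))
      have hxj : |x j i| ≤ (Bd * L / lam) * lam := by
        rw [div_mul_cancel₀ _ hlam.ne']
        nlinarith [hx j i]
      have hxb : |β j * x j i| ≤ (Bd * L / lam) * lam := by
        rw [div_mul_cancel₀ _ hlam.ne', abs_mul]
        exact mul_le_mul (hβ j) (hx j i) (abs_nonneg _) (by linarith)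
      have ht := tail_le (r := r) hlam (by positivity : 0 ≤ Bd * L / lam)
        ((div_le_one hlam).2 hBL) hc hxj hxb
      rw [e1]
      have e3 : ∑ a ∈ univ.filter (fun a : Fin 2 → Fin (K + 1) => od a ≤ r),
          c a * (x j i ^ (a 0 : ℕ) * (β j * x j i) ^ (a 1 : ℕ)) =
          (∑ a, c a * (x j i ^ (a 0 : ℕ) * (β j * x j i) ^ (a 1 : ℕ))) -
          ∑ a ∈ univ.filter (fun a : Fin 2 → Fin (K + 1) => ¬ od a ≤ r),
          c a * (x j i ^ (a 0 : ℕ) * (β j * x j i) ^ (a 1 : ℕ)) := by linarith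
      rw [e3]
      exact (abs_sub _ _).trans (add_le_add (hv j i) ht)
    have h1 := hC P (x j) E L κ' hdeg hκ' hL hE0 (hx j) (hxs j) heval m
    have e4 : P.coeff m = ∑ a ∈ univ.filter (fun a : Fin 2 → Fin (K + 1) => od a = m),
        c a * β j ^ (a 1 : ℕ) := by
      rw [hP, Polynomial.finsetSum_coeff, sum_filter, sum_filter]
      refine sum_congr rfl fun a _ => ?_
      rw [Polynomial.coeff_C_mul_X_pow]
      by_cases h : od a = m
      · rw [if_pos (by omega), if_pos h.symm, if_pos h]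
      · rw [if_neg h]
        by_cases h' : od a ≤ r
        · rw [if_pos h', if_neg (fun h'' => h h''.symm)]
        · rw [if_neg h']
    rw [e4] at h1
    exact h1
  -- interpolation in the slope
  set m := od a with hm
  set Q : Polynomial ℝ := ∑ a ∈ univ.filter (fun a : Fin 2 → Fin (K + 1) => od a = m),
    Polynomial.C (c a) * Polynomial.X ^ (a 1 : ℕ) with hQ
  have hLm : 0 < L ^ m := by positivity
  have hQdeg : Q.natDegree ≤ r := by
    rw [hQ]
    refine Polynomial.natDegree_sum_le_of_forall_le _ _ fun a' ha' => ?_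
    refine (Polynomial.natDegree_C_mul_X_pow_le _ _).trans ?_
    have : od a' = m := (mem_filter.1 ha').2
    have h2 : (a' 1 : ℕ) ≤ od a' := by unfold od; omega
    omega
  have hQeval : ∀ j, |Q.eval (β j)| ≤ C * (E * (L / κ') ^ r) / L ^ m := by
    intro j
    rw [le_div_iff₀ hLm]
    refine le_trans (le_of_eq ?_) (hform j m ha)
    congr 2
    rw [hQ, Polynomial.eval_finsetSum]
    refine sum_congr rfl fun a _ => ?_
    rw [Polynomial.eval_mul, Polynomial.eval_C, Polynomial.eval_pow, Polynomial.eval_X]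
  have h2 := hC Q β _ Bd ρ' hQdeg hρ' (by linarith) (by positivity) hβ hβs hQeval (a 1 : ℕ)
  have e5 : Q.coeff (a 1 : ℕ) = c a := by
    rw [hQ, Polynomial.finsetSum_coeff, sum_eq_single a]
    · rw [Polynomial.coeff_C_mul_X_pow, if_pos rfl]
    · intro a' ha' hne
      rw [Polynomial.coeff_C_mul_X_pow, if_neg]
      intro h
      apply hne
      have h3 : od a' = od a := (mem_filter.1 ha').2
      unfold od at h3
      have h4 : (a' 0 : ℕ) = a 0 := by omega
      funext i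
      fin_cases i
      · exact Fin.ext h4
      · exact Fin.ext h.symm
    · intro h
      exact absurd (mem_filter.2 ⟨mem_univ a, hm.symm⟩ :
        a ∈ univ.filter (fun a : Fin 2 → Fin (K + 1) => od a = m)) h
  rw [e5] at h2
  have h3 : |c a| ≤ |c a| * Bd ^ (a 1 : ℕ) :=
    le_mul_of_one_le_right (abs_nonneg _) (one_le_pow₀ hBd)
  calc |c a| * L ^ m ≤ (|c a| * Bd ^ (a 1 : ℕ)) * L ^ m :=
        mul_le_mul_of_nonneg_right h3 hLm.le
    _ ≤ (C * (C * (E * (L / κ') ^ r) / L ^ m * (Bd / ρ') ^ r)) * L ^ m :=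
        mul_le_mul_of_nonneg_right h2 hLm.le
    _ = C * C * (E * (L / κ') ^ r * (Bd / ρ') ^ r) := by
        field_simp

/-- The slope is bounded and the conic is small on the line. -/
theorem slope_le {R : Fin 6 → ℝ} {Ey Ez β εc ρ κ Bd ε' : ℝ} {e w : Fin 3 → ℝ}
    (hR : ∀ i, |R i| ≤ 1) (hκ : 0 < κ) (hκ1 : κ ≤ 1) (hε : 0 ≤ εc) (hρ : 0 ≤ ρ) (hρ1 : ρ ≤ 1)
    (hBd : 1 ≤ Bd) (hx : |Ey| ≤ 1) (hy : |Ez| ≤ Bd) (hβ : |β| ≤ 2 * Bd / κ)
    (h : ∀ i, |e i| ≤ 1 ∧ |w i - β * e i| ≤ ρ ∧ |qd R (Ey + e i) (Ez + w i)| ≤ εc)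
    (hs : ∀ i j, i ≠ j → κ ≤ |e i - e j|) (hnum : 4800 * Bd ^ 3 * (εc + ρ) ≤ ε' * κ ^ 5)
    (hsl : ∀ α β, |β| ≤ 1 → Ln2 R ε' α β → |Ey - α - β * Ez| ≤ ε' → 1 ≤ Bd * |β|) :
    |β| ≤ Bd ∧ Ln1 R ε' (Ez - β * Ey) β := by
  have hB' : 1 ≤ 2 * Bd / κ := by
    rw [le_div_iff₀ hκ]; nlinarith
  have hB2 : Bd ≤ 2 * Bd / κ := by
    rw [le_div_iff₀ hκ]; nlinarith
  have hk3 : 0 < κ ^ 5 := by positivity
  have hε'0 : 0 ≤ ε' := by
    by_contra hneg
    rw [not_le] at hneg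
    have : ε' * κ ^ 5 < 0 := mul_neg_of_neg_of_pos hneg hk3
    have h2 : 0 ≤ 4800 * Bd ^ 3 * (εc + ρ) := by positivity
    linarith
  have key : ∀ x : ℝ, |x| ≤ 3 → |qd R x (Ez - β * Ey + β * x)| ≤ ε' := by
    intro x hx3
    refine (qua_gen hR hκ hε hρ hρ1 hB' (hx.trans hB') (hy.trans hB2) hβ h hs hx3).trans ?_
    have e1 : 600 * (2 * Bd / κ) ^ 3 * (εc + ρ) / κ ^ 2 = 4800 * Bd ^ 3 * (εc + ρ) / κ ^ 5 := by
      field_simp; ring
    rw [e1, div_le_iff₀ hk3]
    exact hnum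
  refine ⟨?_, fun x hx1 => key x (hx1.trans (by norm_num))⟩
  by_contra hcon
  rw [not_le] at hcon
  have hβ0 : 0 < |β| := by linarith
  have hβne : β ≠ 0 := abs_pos.1 hβ0
  have hinv : |1 / β| < 1 := by
    rw [abs_div, abs_one, div_lt_one hβ0]; linarith
  have hq : |Ez / β| ≤ 1 := by
    rw [abs_div, div_le_one hβ0]; linarith
  have hL2 : Ln2 R ε' (Ey - Ez / β) (1 / β) := by
    intro y hy1
    have hx3 : |Ey - Ez / β + 1 / β * y| ≤ 3 := by
      have h1 : |1 / β * y| ≤ 1 := by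
        rw [abs_mul]
        calc |1 / β| * |y| ≤ 1 * 1 := mul_le_mul hinv.le hy1 (abs_nonneg _) (by norm_num)
          _ = 1 := one_mul _
      calc _ ≤ |Ey - Ez / β| + |1 / β * y| := abs_add_le _ _
        _ ≤ (|Ey| + |Ez / β|) + |1 / β * y| := by gcongr; exact abs_sub _ _
        _ ≤ 3 := by linarith
    have h2 := key _ hx3
    have e2 : Ez - β * Ey + β * (Ey - Ez / β + 1 / β * y) = y := by
      field_simp; ring
    rw [e2] at h2
    exact h2
  have h3 : |Ey - (Ey - Ez / β) - 1 / β * Ez| ≤ ε' := by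
    have e3 : Ey - (Ey - Ez / β) - 1 / β * Ez = 0 := by field_simp; ring
    rw [e3, abs_zero]; exact hε'0
  have h4 := hsl _ _ hinv.le hL2 h3
  rw [abs_div, abs_one, mul_one_div, le_div_iff₀ hβ0] at h4
  linarith

end Pool.PLN
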