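import Pool.Agent.H1.PLN.Pur

/-!
# Lemma PLANE: a conic and lines

`quaStmt`: a conic which is small at three points close to a line is small on the line.
`thrStmt`: a normalised conic is not small on three different lines.
-/

set_option autoImplicit false

namespace Pool.PLN

open Finset

/-- Lagrange interpolation of a quadratic polynomial at three points. -/
theorem lag3 (a b c x₁ x₂ x₃ x : ℝ) (h12 : x₁ ≠ x₂) (h13 : x₁ ≠ x₃) (h23 : x₂ ≠ x₃) :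
    a + b * x + c * x ^ 2 = (a + b * x₁ + c * x₁ ^ 2) * ((x - x₂) * (x - x₃) /
      ((x₁ - x₂) * (x₁ - x₃))) + (a + b * x₂ + c * x₂ ^ 2) * ((x - x₁) * (x - x₃) /
      ((x₂ - x₁) * (x₂ - x₃))) + (a + b * x₃ + c * x₃ ^ 2) * ((x - x₁) * (x - x₂) /
      ((x₃ - x₁) * (x₃ - x₂))) := by
  have e12 : x₁ - x₂ ≠ 0 := sub_ne_zero.2 h12
  have e13 : x₁ - x₃ ≠ 0 := sub_ne_zero.2 h13
  have e23 : x₂ - x₃ ≠ 0 := sub_ne_zero.2 h23
  have e21 : x₂ - x₁ ≠ 0 := sub_ne_zero.2 h12.symm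
  have e31 : x₃ - x₁ ≠ 0 := sub_ne_zero.2 h13.symm
  have e32 : x₃ - x₂ ≠ 0 := sub_ne_zero.2 h23.symm
  field_simp
  ring

/-- A factor of the interpolation is bounded. -/
theorem lag_fac {u v p q L κ : ℝ} (hκ : 0 < κ) (hu : |u| ≤ L) (hv : |v| ≤ L) (hp : κ ≤ |p|)
    (hq : κ ≤ |q|) : |u * v / (p * q)| ≤ L ^ 2 / κ ^ 2 := by
  have hL : 0 ≤ L := (abs_nonneg _).trans hu
  rw [abs_div, abs_mul, abs_mul]
  have h1 : |u| * |v| ≤ L ^ 2 := by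
    rw [sq]; exact mul_le_mul hu hv (abs_nonneg _) hL
  have h2 : κ ^ 2 ≤ |p| * |q| := by
    rw [sq]; exact mul_le_mul hp hq hκ.le (hκ.le.trans hp)
  exact div_le_div₀ (by positivity) h1 (by positivity) h2

/-- A quadratic polynomial which is small at three separated points is small. -/
theorem quad3 {a b c κ ε L x₁ x₂ x₃ x : ℝ} (hκ : 0 < κ) (hε : 0 ≤ ε) (h12 : κ ≤ |x₁ - x₂|)
    (h13 : κ ≤ |x₁ - x₃|) (h23 : κ ≤ |x₂ - x₃|) (h1 : |a + b * x₁ + c * x₁ ^ 2| ≤ ε)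
    (h2 : |a + b * x₂ + c * x₂ ^ 2| ≤ ε) (h3 : |a + b * x₃ + c * x₃ ^ 2| ≤ ε)
    (g1 : |x - x₁| ≤ L) (g2 : |x - x₂| ≤ L) (g3 : |x - x₃| ≤ L) :
    |a + b * x + c * x ^ 2| ≤ 3 * (ε * (L ^ 2 / κ ^ 2)) := by
  have n12 : x₁ ≠ x₂ := by
    rintro rfl; rw [sub_self, abs_zero] at h12; linarith
  have n13 : x₁ ≠ x₃ := by
    rintro rfl; rw [sub_self, abs_zero] at h13; linarith
  have n23 : x₂ ≠ x₃ := by
    rintro rfl; rw [sub_self, abs_zero] at h23; linarith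
  have f1 := lag_fac hκ g2 g3 h12 h13
  have f2 := lag_fac hκ g1 g3 (by rwa [abs_sub_comm] : κ ≤ |x₂ - x₁|) h23
  have f3 := lag_fac hκ g1 g2 (by rwa [abs_sub_comm] : κ ≤ |x₃ - x₁|)
    (by rwa [abs_sub_comm] : κ ≤ |x₃ - x₂|)
  rw [lag3 a b c x₁ x₂ x₃ x n12 n13 n23]
  have k1 : |(a + b * x₁ + c * x₁ ^ 2) * ((x - x₂) * (x - x₃) / ((x₁ - x₂) * (x₁ - x₃)))| ≤
      ε * (L ^ 2 / κ ^ 2) := by
    rw [abs_mul]; exact mul_le_mul h1 f1 (abs_nonneg _) hε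
  have k2 : |(a + b * x₂ + c * x₂ ^ 2) * ((x - x₁) * (x - x₃) / ((x₂ - x₁) * (x₂ - x₃)))| ≤
      ε * (L ^ 2 / κ ^ 2) := by
    rw [abs_mul]; exact mul_le_mul h2 f2 (abs_nonneg _) hε
  have k3 : |(a + b * x₃ + c * x₃ ^ 2) * ((x - x₁) * (x - x₂) / ((x₃ - x₁) * (x₃ - x₂)))| ≤
      ε * (L ^ 2 / κ ^ 2) := by
    rw [abs_mul]; exact mul_le_mul h3 f3 (abs_nonneg _) hε
  refine (abs_add_le _ _).trans ((add_le_add ((abs_add_le _ _).trans (add_le_add k1 k2))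
    k3).trans (le_of_eq ?_))
  ring

/-- The coefficients of a quadratic polynomial which is small at three separated points. -/
theorem coef3 {a b c κ ε L x₁ x₂ x₃ : ℝ} (hκ : 0 < κ) (hε : 0 ≤ ε) (h12 : κ ≤ |x₁ - x₂|)
    (h13 : κ ≤ |x₁ - x₃|) (h23 : κ ≤ |x₂ - x₃|) (h1 : |a + b * x₁ + c * x₁ ^ 2| ≤ ε)
    (h2 : |a + b * x₂ + c * x₂ ^ 2| ≤ ε) (h3 : |a + b * x₃ + c * x₃ ^ 2| ≤ ε)
    (g1 : |x₁| ≤ L) (g2 : |x₂| ≤ L) (g3 : |x₃| ≤ L) :
    |a| ≤ 6 * (ε * ((L + 1) ^ 2 / κ ^ 2)) ∧ |b| ≤ 6 * (ε * ((L + 1) ^ 2 / κ ^ 2)) ∧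
      |c| ≤ 6 * (ε * ((L + 1) ^ 2 / κ ^ 2)) := by
  have hL : 0 ≤ L := (abs_nonneg _).trans g1
  have key : ∀ x : ℝ, |x| ≤ 1 → |a + b * x + c * x ^ 2| ≤ 3 * (ε * ((L + 1) ^ 2 / κ ^ 2)) := by
    intro x hx
    refine quad3 hκ hε h12 h13 h23 h1 h2 h3 ?_ ?_ ?_
    · calc |x - x₁| ≤ |x| + |x₁| := abs_sub _ _
        _ ≤ L + 1 := by linarith
    · calc |x - x₂| ≤ |x| + |x₂| := abs_sub _ _
        _ ≤ L + 1 := by linarith
    · calc |x - x₃| ≤ |x| + |x₃| := abs_sub _ _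
        _ ≤ L + 1 := by linarith
  have hM : 0 ≤ ε * ((L + 1) ^ 2 / κ ^ 2) := by positivity
  have k0 := abs_le.1 (key 0 (by simp))
  have k1 := abs_le.1 (key 1 (by simp))
  have k2 := abs_le.1 (key (-1) (by simp))
  simp only [mul_zero, add_zero, ne_eq, OfNat.ofNat_ne_zero, not_false_eq_true, zero_pow,
    mul_one, one_pow, mul_neg, even_two, Even.neg_pow] at k0 k1 k2
  refine ⟨abs_le.2 ⟨?_, ?_⟩, abs_le.2 ⟨?_, ?_⟩, abs_le.2 ⟨?_, ?_⟩⟩ <;> linarith [k0.1, k0.2,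
    k1.1, k1.2, k2.1, k2.2]

/-- A conic which is small at three points close to a line is small on the line, also for
`|x| ≤ 3`. -/
theorem qua_gen {R : Fin 6 → ℝ} {x₀ y₀ β ε ρ κ Bd : ℝ} {e w : Fin 3 → ℝ} (hR : ∀ i, |R i| ≤ 1)
    (hκ : 0 < κ) (hε : 0 ≤ ε) (hρ : 0 ≤ ρ) (hρ1 : ρ ≤ 1) (hBd : 1 ≤ Bd) (hx : |x₀| ≤ Bd)
    (hy : |y₀| ≤ Bd) (hβ : |β| ≤ Bd)
    (h : ∀ i, |e i| ≤ 1 ∧ |w i - β * e i| ≤ ρ ∧ |qd R (x₀ + e i) (y₀ + w i)| ≤ ε)
    (hs : ∀ i j, i ≠ j → κ ≤ |e i - e j|) {x : ℝ} (hx1 : |x| ≤ 3) :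
    |qd R x (y₀ - β * x₀ + β * x)| ≤ 600 * Bd ^ 3 * (ε + ρ) / κ ^ 2 := by
  -- values at the nodes
  have hv : ∀ i, |(R 0 + R 2 * (y₀ - β * x₀) + R 5 * (y₀ - β * x₀) ^ 2) +
      (R 1 + R 2 * β + R 4 * (y₀ - β * x₀) + 2 * R 5 * (y₀ - β * x₀) * β) * (x₀ + e i) +
      (R 3 + R 4 * β + R 5 * β ^ 2) * (x₀ + e i) ^ 2| ≤ 8 * Bd * (ε + ρ) := by
    intro i
    obtain ⟨h1, h2, h3⟩ := h i
    have e1 : (R 0 + R 2 * (y₀ - β * x₀) + R 5 * (y₀ - β * x₀) ^ 2) +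
      (R 1 + R 2 * β + R 4 * (y₀ - β * x₀) + 2 * R 5 * (y₀ - β * x₀) * β) * (x₀ + e i) +
      (R 3 + R 4 * β + R 5 * β ^ 2) * (x₀ + e i) ^ 2 = qd R (x₀ + e i) (y₀ + w i) -
      (w i - β * e i) * (R 2 + R 4 * (x₀ + e i) + R 5 * ((y₀ + w i) + (y₀ + β * e i))) := by
      unfold qd; ring
    rw [e1]
    have hxe : |x₀ + e i| ≤ 2 * Bd := by
      calc _ ≤ |x₀| + |e i| := abs_add_le _ _
        _ ≤ 2 * Bd := by linarith
    have hbe : |β * e i| ≤ Bd := by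
      rw [abs_mul]
      calc |β| * |e i| ≤ Bd * 1 := mul_le_mul hβ h1 (abs_nonneg _) (by linarith)
        _ = Bd := mul_one _
    have hwe : |w i| ≤ Bd + 1 := by
      calc |w i| = |(w i - β * e i) + β * e i| := by ring_nf
        _ ≤ |w i - β * e i| + |β * e i| := abs_add_le _ _
        _ ≤ Bd + 1 := by linarith
    have hY : |(y₀ + w i) + (y₀ + β * e i)| ≤ 5 * Bd := by
      calc _ ≤ |y₀ + w i| + |y₀ + β * e i| := abs_add_le _ _
        _ ≤ (|y₀| + |w i|) + (|y₀| + |β * e i|) := add_le_add (abs_add_le _ _) (abs_add_le _ _)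
        _ ≤ 5 * Bd := by linarith
    have hfac : |R 2 + R 4 * (x₀ + e i) + R 5 * ((y₀ + w i) + (y₀ + β * e i))| ≤ 8 * Bd := by
      have a1 : |R 4 * (x₀ + e i)| ≤ 2 * Bd := by
        rw [abs_mul]
        calc |R 4| * |x₀ + e i| ≤ 1 * (2 * Bd) :=
              mul_le_mul (hR 4) hxe (abs_nonneg _) (by norm_num)
          _ = 2 * Bd := one_mul _
      have a2 : |R 5 * ((y₀ + w i) + (y₀ + β * e i))| ≤ 5 * Bd := by
        rw [abs_mul]
        calc |R 5| * |(y₀ + w i) + (y₀ + β * e i)| ≤ 1 * (5 * Bd) :=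
              mul_le_mul (hR 5) hY (abs_nonneg _) (by norm_num)
          _ = 5 * Bd := one_mul _
      calc _ ≤ |R 2 + R 4 * (x₀ + e i)| + |R 5 * ((y₀ + w i) + (y₀ + β * e i))| :=
            abs_add_le _ _
        _ ≤ (|R 2| + |R 4 * (x₀ + e i)|) + |R 5 * ((y₀ + w i) + (y₀ + β * e i))| := by
            gcongr; exact abs_add_le _ _
        _ ≤ 8 * Bd := by linarith [hR 2]
    have h4 : |(w i - β * e i) * (R 2 + R 4 * (x₀ + e i) + R 5 * ((y₀ + w i) +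
        (y₀ + β * e i)))| ≤ ρ * (8 * Bd) := by
      rw [abs_mul]; exact mul_le_mul h2 hfac (abs_nonneg _) hρ
    have h5 : ε ≤ 8 * Bd * ε := by nlinarith
    calc _ ≤ |qd R (x₀ + e i) (y₀ + w i)| + |(w i - β * e i) * (R 2 + R 4 * (x₀ + e i) +
          R 5 * ((y₀ + w i) + (y₀ + β * e i)))| := abs_sub _ _
      _ ≤ ε + ρ * (8 * Bd) := add_le_add h3 h4
      _ ≤ 8 * Bd * (ε + ρ) := by linarith
  have hnode : ∀ i, |x - (x₀ + e i)| ≤ 5 * Bd := by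
    intro i
    have h1 := (h i).1
    calc |x - (x₀ + e i)| ≤ |x| + |x₀ + e i| := abs_sub _ _
      _ ≤ |x| + (|x₀| + |e i|) := by gcongr; exact abs_add_le _ _
      _ ≤ 5 * Bd := by linarith
  have hsep : ∀ i j, i ≠ j → κ ≤ |(x₀ + e i) - (x₀ + e j)| := by
    intro i j hij
    have := hs i j hij
    rwa [add_sub_add_left_eq_sub]
  have key := quad3 hκ (by positivity : 0 ≤ 8 * Bd * (ε + ρ)) (hsep 0 1 (by decide))
    (hsep 0 2 (by decide)) (hsep 1 2 (by decide)) (hv 0) (hv 1) (hv 2) (hnode 0) (hnode 1)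
    (hnode 2)
  have e2 : qd R x (y₀ - β * x₀ + β * x) = (R 0 + R 2 * (y₀ - β * x₀) +
      R 5 * (y₀ - β * x₀) ^ 2) + (R 1 + R 2 * β + R 4 * (y₀ - β * x₀) +
      2 * R 5 * (y₀ - β * x₀) * β) * x + (R 3 + R 4 * β + R 5 * β ^ 2) * x ^ 2 := by
    unfold qd; ring
  rw [e2]
  refine key.trans (le_of_eq ?_)
  have hk : 0 < κ ^ 2 := by positivity
  field_simp
  ring

/-- **P3a.** -/
theorem quaStmt : QuaStmt := by
  refine ⟨600, by norm_num, ?_⟩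
  intro R x₀ y₀ β ε ρ κ Bd e w hN hκ hκ1 hε hρ hρ1 hBd hx hy hβ h hs x hx1
  refine (qua_gen hN.1 hκ hε hρ hρ1 hBd hx hy hβ h hs (hx1.trans (by norm_num))).trans ?_
  have hB : Bd ^ 3 ≤ Bd ^ 4 := pow_le_pow_right₀ hBd (by norm_num)
  have h0 : 0 ≤ ε + ρ := by linarith
  gcongr

/-- For two different lines at most one of the seven abscissae is bad. -/
theorem one_bad {a b ρ : ℝ} (hρ : 0 < ρ) (h : ρ < |a| ∨ ρ < |b|) (k k' : Fin 7)
    (hk : |a + b * (-1 + (k : ℝ) / 3)| < ρ / 16) (hk' : |a + b * (-1 + (k' : ℝ) / 3)| < ρ / 16) :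
    k = k' := by
  by_contra hne
  have hnat : (k : ℕ) ≠ (k' : ℕ) := fun h => hne (Fin.ext h)
  have h1 : (1 : ℝ) ≤ |((k : ℕ) : ℝ) - ((k' : ℕ) : ℝ)| := by
    have : (1 : ℤ) ≤ |((k : ℕ) : ℤ) - ((k' : ℕ) : ℤ)| := by
      apply Int.one_le_abs
      intro h0
      apply hnat
      omega
    exact_mod_cast this
  have h2 : |b * ((((k : ℕ) : ℝ) - ((k' : ℕ) : ℝ)) / 3)| < ρ / 8 := by
    have e : b * ((((k : ℕ) : ℝ) - ((k' : ℕ) : ℝ)) / 3) = (a + b * (-1 + (k : ℝ) / 3)) -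
      (a + b * (-1 + (k' : ℝ) / 3)) := by ring
    rw [e]
    calc _ ≤ _ + _ := abs_sub _ _
      _ < ρ / 16 + ρ / 16 := add_lt_add hk hk'
      _ = ρ / 8 := by ring
  have h3 : |b| * (1 / 3) ≤ |b * ((((k : ℕ) : ℝ) - ((k' : ℕ) : ℝ)) / 3)| := by
    rw [abs_mul, abs_div, abs_of_pos (by norm_num : (0 : ℝ) < 3)]
    have := abs_nonneg b
    gcongr
  have hb : |b| < 3 * ρ / 8 := by linarith
  have hx : |(-1 : ℝ) + (k : ℝ) / 3| ≤ 1 := by
    have : (k : ℕ) ≤ 6 := by omega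
    have h6 : ((k : ℕ) : ℝ) ≤ 6 := by exact_mod_cast this
    have h0 : (0 : ℝ) ≤ ((k : ℕ) : ℝ) := Nat.cast_nonneg _
    rw [abs_le]; constructor <;> linarith
  have ha : |a| < ρ := by
    have e : a = (a + b * (-1 + (k : ℝ) / 3)) - b * (-1 + (k : ℝ) / 3) := by ring
    rw [e]
    have h4 : |b * (-1 + (k : ℝ) / 3)| ≤ |b| := by
      rw [abs_mul]
      calc |b| * |(-1 : ℝ) + (k : ℝ) / 3| ≤ |b| * 1 :=
            mul_le_mul_of_nonneg_left hx (abs_nonneg _)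
        _ = |b| := mul_one _
    calc _ ≤ _ + _ := abs_sub _ _
      _ < ρ / 16 + 3 * ρ / 8 := by linarith
      _ ≤ ρ := by linarith
  rcases h with h | h <;> linarith

/-- **P3b.** -/
theorem thrStmt : ThrStmt := by
  classical
  refine ⟨2, 3000000, by norm_num, ?_⟩
  intro R α β ε ρ Bd hN hε hρ hρ1 hBd h hC
  by_contra hcon
  push Not at hcon
  have hdif : ∀ i j, i ≠ j → ρ < |α i - α j| ∨ ρ < |β i - β j| := by
    intro i j hij
    by_cases h1 : |α i - α j| ≤ ρ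
    · exact Or.inr (hcon i j hij h1)
    · exact Or.inl (not_le.1 h1)
  -- the bad abscissae
  let X : Fin 7 → ℝ := fun k => -1 + (k : ℝ) / 3
  let Bad : Fin 3 → Fin 3 → Finset (Fin 7) := fun i j =>
    univ.filter fun k => |(α i - α j) + (β i - β j) * X k| < ρ / 16
  have hBad : ∀ i j, i ≠ j → (Bad i j).card ≤ 1 := by
    intro i j hij
    rw [Finset.card_le_one]
    intro k hk k' hk'
    exact one_bad hρ (hdif i j hij) k k' (mem_filter.1 hk).2 (mem_filter.1 hk').2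
  let G : Finset (Fin 7) := univ \ (Bad 0 1 ∪ Bad 0 2 ∪ Bad 1 2)
  have hG : 2 < G.card := by
    have h1 : (Bad 0 1 ∪ Bad 0 2 ∪ Bad 1 2).card ≤ 3 := by
      calc _ ≤ (Bad 0 1 ∪ Bad 0 2).card + (Bad 1 2).card := card_union_le _ _
        _ ≤ ((Bad 0 1).card + (Bad 0 2).card) + (Bad 1 2).card := by
            gcongr; exact card_union_le _ _
        _ ≤ 3 := by
            have := hBad 0 1 (by decide)
            have := hBad 0 2 (by decide)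
            have := hBad 1 2 (by decide)
            omega
    have h2 : G.card = 7 - (Bad 0 1 ∪ Bad 0 2 ∪ Bad 1 2).card := by
      rw [card_sdiff_of_subset (subset_univ _)]; simp
    omega
  obtain ⟨k₁, k₂, k₃, hk₁, hk₂, hk₃, n12, n13, n23⟩ := Finset.two_lt_card_iff.1 hG
  have hXb : ∀ k : Fin 7, |X k| ≤ 1 := by
    intro k
    have : (k : ℕ) ≤ 6 := by omega
    have h6 : ((k : ℕ) : ℝ) ≤ 6 := by exact_mod_cast this
    have h0 : (0 : ℝ) ≤ ((k : ℕ) : ℝ) := Nat.cast_nonneg _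
    change |(-1 : ℝ) + (k : ℝ) / 3| ≤ 1
    rw [abs_le]; constructor <;> linarith
  have hXs : ∀ k k' : Fin 7, k ≠ k' → 1 / 3 ≤ |X k - X k'| := by
    intro k k' hne
    have hnat : (k : ℕ) ≠ (k' : ℕ) := fun h => hne (Fin.ext h)
    have h1 : (1 : ℝ) ≤ |((k : ℕ) : ℝ) - ((k' : ℕ) : ℝ)| := by
      have : (1 : ℤ) ≤ |((k : ℕ) : ℤ) - ((k' : ℕ) : ℤ)| := by
        apply Int.one_le_abs
        intro h0
        apply hnat
        omega
      exact_mod_cast this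
    have e : X k - X k' = (((k : ℕ) : ℝ) - ((k' : ℕ) : ℝ)) / 3 := by
      change (-1 + (k : ℝ) / 3) - (-1 + (k' : ℝ) / 3) = _
      ring
    rw [e, abs_div, abs_of_pos (by norm_num : (0 : ℝ) < 3)]
    linarith
  -- at a good abscissa
  set M₁ : ℝ := 6 * (ε * ((2 * Bd + 1) ^ 2 / (ρ / 16) ^ 2)) with hM₁
  have hgood : ∀ k ∈ G, |R 5| ≤ M₁ ∧ |R 2 + R 4 * X k + 0 * X k ^ 2| ≤ M₁ ∧
      |R 0 + R 1 * X k + R 3 * X k ^ 2| ≤ M₁ := by
    intro k hk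
    have hnb : ∀ i j, k ∉ Bad i j → ρ / 16 ≤ |(α i + β i * X k) - (α j + β j * X k)| := by
      intro i j hb
      have : ¬ |(α i - α j) + (β i - β j) * X k| < ρ / 16 := by
        intro hlt; exact hb (mem_filter.2 ⟨mem_univ _, hlt⟩)
      rw [not_lt] at this
      have e : (α i + β i * X k) - (α j + β j * X k) = (α i - α j) + (β i - β j) * X k := by ring
      rw [e]; exact this
    have hk' := (mem_sdiff.1 hk).2
    rw [mem_union, mem_union, not_or, not_or] at hk'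
    obtain ⟨⟨b01, b02⟩, b12⟩ := hk'
    have hY : ∀ i, |α i + β i * X k| ≤ 2 * Bd := by
      intro i
      obtain ⟨a1, a2, _⟩ := h i
      have : |β i * X k| ≤ Bd := by
        rw [abs_mul]
        calc |β i| * |X k| ≤ Bd * 1 := mul_le_mul a2 (hXb k) (abs_nonneg _) (by linarith)
          _ = Bd := mul_one _
      calc _ ≤ |α i| + |β i * X k| := abs_add_le _ _
        _ ≤ 2 * Bd := by linarith
    have hv : ∀ i, |(R 0 + R 1 * X k + R 3 * X k ^ 2) + (R 2 + R 4 * X k) * (α i + β i * X k) +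
        R 5 * (α i + β i * X k) ^ 2| ≤ ε := by
      intro i
      have := (h i).2.2 (X k) (hXb k)
      unfold qd at this
      have e : (R 0 + R 1 * X k + R 3 * X k ^ 2) + (R 2 + R 4 * X k) * (α i + β i * X k) +
        R 5 * (α i + β i * X k) ^ 2 = R 0 + R 1 * X k + R 2 * (α i + β i * X k) +
        R 3 * X k ^ 2 + R 4 * (X k * (α i + β i * X k)) + R 5 * (α i + β i * X k) ^ 2 := by ring
      rw [e]; exact this
    have := coef3 (by positivity : 0 < ρ / 16) hε (hnb 0 1 b01) (hnb 0 2 b02) (hnb 1 2 b12)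
      (hv 0) (hv 1) (hv 2) (hY 0) (hY 1) (hY 2)
    refine ⟨this.2.2, ?_, this.1⟩
    have e : R 2 + R 4 * X k + 0 * X k ^ 2 = R 2 + R 4 * X k := by ring
    rw [e]; exact this.2.1
  have hM0 : 0 ≤ M₁ := (abs_nonneg _).trans (hgood k₁ hk₁).1
  have hk3 : (0 : ℝ) < 1 / 3 := by norm_num
  have s12 := hXs k₁ k₂ n12
  have s13 := hXs k₁ k₃ n13
  have s23 := hXs k₂ k₃ n23
  have r1 := coef3 hk3 hM0 s12 s13 s23 (hgood k₁ hk₁).2.1 (hgood k₂ hk₂).2.1 (hgood k₃ hk₃).2.1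
    (hXb k₁) (hXb k₂) (hXb k₃)
  have r2 := coef3 hk3 hM0 s12 s13 s23 (hgood k₁ hk₁).2.2 (hgood k₂ hk₂).2.2 (hgood k₃ hk₃).2.2
    (hXb k₁) (hXb k₂) (hXb k₃)
  have eM : 6 * (M₁ * (((1 : ℝ) + 1) ^ 2 / (1 / 3) ^ 2)) = 216 * M₁ := by ring
  rw [eM] at r1 r2
  -- the constant
  have hρ2 : 0 < ρ ^ 2 := by positivity
  have hMle : 216 * M₁ < 1 := by
    have e : M₁ = 1536 * (2 * Bd + 1) ^ 2 * ε / ρ ^ 2 := by
      rw [hM₁]; field_simp; ring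
    have h9 : (2 * Bd + 1) ^ 2 ≤ 9 * Bd ^ 2 := by nlinarith
    have h10 : M₁ ≤ 13824 * Bd ^ 2 * ε / ρ ^ 2 := by
      rw [e]
      apply div_le_div_of_nonneg_right _ hρ2.le
      nlinarith
    have h11 : Bd ^ 2 * ε ≤ ρ ^ 2 / 3000000 := by
      rw [le_div_iff₀ (by norm_num)]; linarith
    have h12 : 13824 * Bd ^ 2 * ε / ρ ^ 2 ≤ 13824 / 3000000 := by
      rw [div_le_iff₀ hρ2]
      nlinarith
    have : M₁ ≤ 13824 / 3000000 := h10.trans h12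
    have h13 : 216 * (13824 / 3000000 : ℝ) < 1 := by norm_num
    linarith
  obtain ⟨i, hi⟩ := hN.2
  have hall : ∀ i, |R i| < 1 := by
    intro i
    have c5 : |R 5| ≤ M₁ := (hgood k₁ hk₁).1
    fin_cases i
    · exact lt_of_le_of_lt r2.1 hMle
    · exact lt_of_le_of_lt r2.2.1 hMle
    · exact lt_of_le_of_lt r1.1 hMle
    · exact lt_of_le_of_lt r2.2.2 hMle
    · exact lt_of_le_of_lt r1.2.1 hMle
    · refine lt_of_le_of_lt c5 ?_
      linarith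
  exact absurd hi (ne_of_lt (hall i))

end Pool.PLN
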